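import Mathlib

/-!
# The first elements of a set of segments
-/

set_option autoImplicit false

namespace Pool.Agent.L0h58.HM

open Finset

variable {r : ℕ}

/-- The elements with less than `m` predecessors. -/
def trn (m : ℕ) (T : Finset (Fin r)) : Finset (Fin r) :=
  T.filter fun s => (T.filter fun u => u < s).card < m

theorem trn_sub (m : ℕ) (T : Finset (Fin r)) : trn m T ⊆ T := filter_subset _ _

theorem card_trn_le (m : ℕ) (T : Finset (Fin r)) : (trn m T).card ≤ m := by
  have hr : (range m).card = m := card_range m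
  refine le_trans (card_le_card_of_injOn (t := range m)
    (fun s => (T.filter fun u => u < s).card) ?_ ?_) hr.le
  · intro s hs
    have := (mem_filter.1 (mem_coe.1 hs)).2
    exact mem_coe.2 (mem_range.2 this)
  · intro s hs s' hs' h
    have hsT := (mem_filter.1 (mem_coe.1 hs)).1
    have hsT' := (mem_filter.1 (mem_coe.1 hs')).1
    have hlt : ∀ a ∈ T, ∀ b ∈ T, a < b →
        (T.filter fun u => u < a).card < (T.filter fun u => u < b).card := by
      intro a ha b hb hab
      apply card_lt_card
      rw [ssubset_iff_of_subset]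
      · exact ⟨a, mem_filter.2 ⟨ha, hab⟩, fun h => lt_irrefl _ (mem_filter.1 h).2⟩
      · intro u hu
        obtain ⟨h1, h2⟩ := mem_filter.1 hu
        exact mem_filter.2 ⟨h1, h2.trans hab⟩
    rcases lt_trichotomy s s' with h1 | h1 | h1
    · exact absurd h (hlt s hsT s' hsT' h1).ne
    · exact h1
    · exact absurd h.symm (hlt s' hsT' s hsT h1).ne

theorem trn_eq {m : ℕ} {T : Finset (Fin r)} (h : T.card ≤ m) : trn m T = T := by
  unfold trn
  rw [filter_eq_self]
  intro s hs
  refine lt_of_lt_of_le (card_lt_card ?_) h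
  rw [ssubset_iff_of_subset (filter_subset _ _)]
  exact ⟨s, hs, fun h => lt_irrefl _ (mem_filter.1 h).2⟩

theorem le_card_trn {m : ℕ} {T : Finset (Fin r)} (h : trn m T ≠ T) : m ≤ (trn m T).card := by
  have h1 : (T \ trn m T).Nonempty := by
    rw [sdiff_nonempty]
    exact fun h2 => h (Subset.antisymm (trn_sub m T) h2)
  obtain ⟨s, hs, hmin⟩ := exists_min_image (T \ trn m T) (fun s => s) h1
  obtain ⟨hsT, hs2⟩ := mem_sdiff.1 hs
  have h3 : m ≤ (T.filter fun u => u < s).card := by
    by_contra hcon
    exact hs2 (mem_filter.2 ⟨hsT, not_le.1 hcon⟩)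
  refine h3.trans (card_le_card fun u hu => ?_)
  obtain ⟨huT, hus⟩ := mem_filter.1 hu
  by_contra hcon
  have := hmin u (mem_sdiff.2 ⟨huT, hcon⟩)
  exact absurd hus (not_lt.2 this)

theorem card_trn_iff {m i : ℕ} (hi : i < m) (T : Finset (Fin r)) :
    (trn m T).card = i ↔ T.card = i := by
  by_cases h : trn m T = T
  · rw [h]
  · have h1 := le_card_trn h
    have h2 := card_le_card (trn_sub m T)
    constructor
    · intro h3; omega
    · intro h3; omega

/-- Mixing preserves the first elements. -/
theorem trn_mix {m : ℕ} {T₁ T₂ T : Finset (Fin r)} (h : trn m T₁ = trn m T₂)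
    (hT : ∀ s, s ∈ T → s ∈ T₁ ∨ s ∈ T₂) (hT' : ∀ s, s ∈ T₁ → s ∈ T₂ → s ∈ T)
    (hord : ∀ s, (s ∈ T ↔ s ∈ T₁) ∨ (s ∈ T ↔ s ∈ T₂)) : trn m T = trn m T₁ := by
  obtain ⟨R, hR⟩ : ∃ R, R = trn m T₁ := ⟨_, rfl⟩
  rw [← hR] at h ⊢
  have hR1 : R ⊆ T₁ := by rw [hR]; exact trn_sub _ _
  have hR2 : R ⊆ T₂ := by rw [h]; exact trn_sub _ _
  rcases lt_or_ge R.card m with hc | hc
  · have e1 : T₁ = R := by
      by_contra hne
      have := le_card_trn (m := m) (T := T₁) (by rw [← hR]; exact fun h' => hne h'.symm)
      rw [← hR] at this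
      omega
    have e2 : T₂ = R := by
      by_contra hne
      have := le_card_trn (m := m) (T := T₂) (by rw [← h]; exact fun h' => hne h'.symm)
      rw [← h] at this
      omega
    have e3 : T = R := by
      ext s
      constructor
      · intro hs
        rcases hT s hs with h' | h'
        · rwa [e1] at h'
        · rwa [e2] at h'
      · intro hs
        exact hT' s (by rw [e1]; exact hs) (by rw [e2]; exact hs)
    rw [e3]
    exact trn_eq hc.le
  · have hc' : R.card = m := le_antisymm (by rw [hR]; exact card_trn_le m T₁) hc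
    -- the elements below some element of `R`
    have low : ∀ (T' : Finset (Fin r)), R = trn m T' → ∀ u ∈ R, ∀ s, s ≤ u → (s ∈ T' ↔ s ∈ R) := by
      intro T' hT'R u hu s hsu
      constructor
      · intro hs
        rw [hT'R] at hu ⊢
        have h1 := (mem_filter.1 hu).2
        refine mem_filter.2 ⟨hs, lt_of_le_of_lt (card_le_card ?_) h1⟩
        intro w hw
        obtain ⟨h2, h3⟩ := mem_filter.1 hw
        exact mem_filter.2 ⟨h2, lt_of_lt_of_le h3 hsu⟩
      · intro hs
        rw [hT'R] at hs
        exact trn_sub _ _ hs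
    have lowT : ∀ u ∈ R, ∀ s, s ≤ u → (s ∈ T ↔ s ∈ R) := by
      intro u hu s hsu
      have h1 := low T₁ hR u hu s hsu
      have h2 := low T₂ h u hu s hsu
      rcases hord s with h3 | h3
      · rw [h3, h1]
      · rw [h3, h2]
    rcases Nat.eq_zero_or_pos m with hm | hm
    · subst hm
      have : R = ∅ := card_eq_zero.1 hc'
      rw [this]
      unfold trn
      rw [filter_eq_empty_iff]
      intro s _
      exact Nat.not_lt_zero _
    have hne : R.Nonempty := by
      rw [← card_pos, hc']
      exact hm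
    obtain ⟨u, hu, hmax⟩ := exists_max_image R (fun s => s) hne
    ext s
    constructor
    · intro hs
      obtain ⟨hsT, hs2⟩ := mem_filter.1 hs
      rcases le_or_gt s u with hsu | hsu
      · exact (lowT u hu s hsu).1 hsT
      · exfalso
        have : R.card ≤ (T.filter fun w => w < s).card := by
          apply card_le_card
          intro w hw
          have hwu := hmax w hw
          exact mem_filter.2 ⟨(lowT u hu w hwu).2 hw, lt_of_le_of_lt hwu hsu⟩
        omega
    · intro hs
      have hsu := hmax s hs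
      refine mem_filter.2 ⟨(lowT u hu s hsu).2 hs, ?_⟩
      refine lt_of_lt_of_le (card_lt_card (t := R) ?_) hc'.le
      rw [ssubset_iff_of_subset]
      · exact ⟨s, hs, fun h => lt_irrefl _ (mem_filter.1 h).2⟩
      · intro w hw
        obtain ⟨h1, h2⟩ := mem_filter.1 hw
        exact (lowT u hu w (h2.le.trans hsu)).1 h1

/-- The number of the sets with at most `m` elements. -/
theorem card_small (m : ℕ) :
    (univ.filter fun T : Finset (Fin r) => T.card ≤ m).card ≤ (r + 1) ^ m := by
  classical
  have h1 : (univ : Finset (Fin m → Option (Fin r))).card = (r + 1) ^ m := by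
    rw [card_univ, Fintype.card_fun, Fintype.card_option, Fintype.card_fin, Fintype.card_fin]
  rw [← h1]
  apply card_le_card_of_surjOn fun f : Fin m → Option (Fin r) =>
    univ.filter fun s => ∃ i, f i = some s
  intro T hT
  have hc := (mem_filter.1 (mem_coe.1 hT)).2
  let eqv := T.equivFin
  refine ⟨fun i => if h : (i : ℕ) < T.card then some (eqv.symm ⟨i, h⟩ : Fin r) else none,
    by simp, ?_⟩
  ext s
  simp only [mem_filter, mem_univ, true_and]
  constructor
  · rintro ⟨i, hi⟩
    split_ifs at hi with h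
    have := Option.some_injective _ hi
    rw [← this]
    exact (eqv.symm ⟨i, h⟩).2
  · intro hs
    have h2 := (eqv ⟨s, hs⟩).isLt
    refine ⟨⟨eqv ⟨s, hs⟩, by omega⟩, ?_⟩
    rw [dif_pos h2]
    congr 1
    have : (⟨(eqv ⟨s, hs⟩ : Fin T.card), h2⟩ : Fin T.card) = eqv ⟨s, hs⟩ := rfl
    rw [this, Equiv.symm_apply_apply]

end Pool.Agent.L0h58.HM
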