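import Pool.Agent.L0h37.HN.LAB
import Pool.Agent.L0h58.HM.Trn

/-!
# The labelling can be chosen from the first readings of few variables

This is the proof of `t_LAB` of helper37 with shortened records.
-/

set_option autoImplicit false
set_option linter.all false
set_option maxHeartbeats 2000000

open Finset
open scoped Classical

namespace Pool.Agent.L0h58.HM

open Pool.Agent.L0h32.LT Pool.Agent.L0h32.LT2 Pool.Agent.L0h58.HN Pool.Agent.L0h37.HN

/-- **LAB2.** The labelling can be chosen from the first readings of few variables. -/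
def S_LAB2 : Prop :=
  ∀ (k y n r ℓ σ : ℕ) (X : Type) [Fintype X] (t : X → Fin n → Finset (Fin r)),
    1 ≤ k → 1 ≤ n → 1 ≤ σ → 1 ≤ ℓ → r * ℓ ≤ k * n → (∀ x i, (t x i).Nonempty) →
    (∀ x s, (univ.filter fun i => s ∈ t x i).card ≤ ℓ) →
    ∃ (S : Fin σ → Fin n) (j : (Fin σ → Finset (Fin r)) → ℕ)
      (F : (Fin σ → Finset (Fin r)) → Fin r → ℕ) (Z : (Fin σ → Finset (Fin r)) → Finset (Fin n)),
      ((univ.filter fun x => ¬ Fair (2 ^ dx (2 * k) y) (2 ^ y)
          (j fun a => trn (2 * k + 1) (t x (S a))) (t x)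
          (F fun a => trn (2 * k + 1) (t x (S a)))
          (Z fun a => trn (2 * k + 1) (t x (S a)))).card : ℝ) ≤
        (4 * k * Real.exp (-((σ : ℝ) / (2 * 4 ^ ee (2 * k) y))) +
          3 * Real.exp (-((n : ℝ) / (16 * k * (2 ^ y) ^ 2 * (2 ^ dx (2 * k) y) ^ 2 * ℓ)))) *
            Fintype.card X

theorem t_LAB2 (hC : S_CON) (hS : S_SMP) (hX : S_SELX) : S_LAB2 := by
  intro k y n r ℓ σ X _ t hk hn hσ hℓ hrl hne hcard
  choose uu jj θθ hu1 hu2 hj1 hj2 hθ hAna using hX k y n σ hk hn hσ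
  obtain ⟨D, hD⟩ : ∃ D : ℕ, D = 2 ^ dx (2 * k) y := ⟨_, rfl⟩
  obtain ⟨E, hE⟩ : ∃ E : ℕ, E = 2 ^ y := ⟨_, rfl⟩
  have hD1 : 1 ≤ D := by rw [hD]; exact Nat.one_le_two_pow
  have hE1 : 1 ≤ E := by rw [hE]; exact Nat.one_le_two_pow
  have : Nonempty (Fin n) := ⟨⟨0, hn⟩⟩
  -- the sample
  obtain ⟨S, hSS⟩ := avg (Ω := Fin σ → Fin n) (univ : Finset X)
    (fun x S => ¬ Acc (2 * k) (ee (2 * k) y) σ (cnt (t x) S) (t x))
    (Real.exp ((σ : ℝ) / (2 * 4 ^ ee (2 * k) y))) (4 * k) (by
      intro x _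
      have := hS (2 * k) (ee (2 * k) y) n σ r (t x) hn
      refine this.trans (le_of_eq ?_)
      rw [Fintype.card_fun, Fintype.card_fin, Fintype.card_fin]
      push_cast
      ring)
  obtain ⟨wR, hwR⟩ : ∃ wR : (Fin σ → Finset (Fin r)) → ℕ → ℕ,
      wR = fun rec i => (univ.filter fun a => (rec a).card = i).card := ⟨_, rfl⟩
  obtain ⟨rec, hrec⟩ : ∃ rec : X → Fin σ → Finset (Fin r),
      rec = fun x a => trn (2 * k + 1) (t x (S a)) := ⟨_, rfl⟩
  obtain ⟨par, hpar⟩ : ∃ par : (Fin σ → Finset (Fin r)) → ℕ × ℕ × ℕ,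
      par = fun ρ => (uu (wR ρ), jj (wR ρ), θθ (wR ρ)) := ⟨_, rfl⟩
  have hcnt : ∀ x, Acc (2 * k) (ee (2 * k) y) σ (cnt (t x) S) (t x) →
      Acc (2 * k) (ee (2 * k) y) σ (wR (rec x)) (t x) := by
    intro x hx i hi
    have h1 := hx i hi
    have h2 : wR (rec x) i = cnt (t x) S i := by
      rw [hwR, hrec]
      unfold cnt
      refine congrArg card (filter_congr fun a _ => ?_)
      exact card_trn_iff (by have := (mem_Icc.1 hi).2; omega) _
    rw [h2]
    exact h1
  obtain ⟨G, hG⟩ : ∃ G : Finset X,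
      G = univ.filter fun x => Acc (2 * k) (ee (2 * k) y) σ (cnt (t x) S) (t x) := ⟨_, rfl⟩
  have hsum : ∀ x, ∑ i, (t x i).card ≤ k * n := by
    intro x
    have h1 : ∑ i, (t x i).card = ∑ s : Fin r, (univ.filter fun i => s ∈ t x i).card := by
      have h2 : ∀ i, (t x i).card = ∑ s : Fin r, if s ∈ t x i then 1 else 0 := by
        intro i
        rw [sum_boole, Nat.cast_id]
        congr 1
        ext s
        simp
      have h3 : ∀ s : Fin r, (univ.filter fun i => s ∈ t x i).card =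
          ∑ i, if s ∈ t x i then 1 else 0 := by
        intro s
        rw [sum_boole, Nat.cast_id]
      rw [sum_congr rfl fun i _ => h2 i, sum_comm]
      exact sum_congr rfl fun s _ => (h3 s).symm
    rw [h1]
    refine (sum_le_sum fun s _ => hcard x s).trans ?_
    rw [sum_const, card_univ, Fintype.card_fin, smul_eq_mul]
    exact hrl
  obtain ⟨ex, hex⟩ : ∃ ex : ℝ, ex = (n : ℝ) / (16 * k * (2 ^ y) ^ 2 * (2 ^ dx (2 * k) y) ^ 2 * ℓ) :=
    ⟨_, rfl⟩
  -- the labellings
  have key : ∀ p : ℕ × ℕ × ℕ, ∃ FZ : (Fin r → ℕ) × Finset (Fin n),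
      (((G.filter fun x => par (rec x) = p).filter fun x =>
        ¬ Fair D E p.2.1 (t x) FZ.1 FZ.2).card : ℝ) * Real.exp ex ≤
        3 * (G.filter fun x => par (rec x) = p).card := by
    intro p
    rcases (G.filter fun x => par (rec x) = p).eq_empty_or_nonempty with h0 | ⟨x₀, hx₀⟩
    · refine ⟨(fun _ => 0, ∅), ?_⟩
      rw [h0, filter_empty, card_empty, Nat.cast_zero, zero_mul, mul_zero]
    · have hp : ∀ x ∈ G.filter (fun x => par (rec x) = p),
          Acc (2 * k) (ee (2 * k) y) σ (wR (rec x)) (t x) ∧ uu (wR (rec x)) = p.1 ∧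
            jj (wR (rec x)) = p.2.1 ∧ θθ (wR (rec x)) = p.2.2 := by
        intro x hx
        obtain ⟨h1, h2⟩ := mem_filter.1 hx
        rw [hG] at h1
        have h3 := hcnt x (mem_filter.1 h1).2
        rw [hpar] at h2
        refine ⟨h3, ?_, ?_, ?_⟩
        · rw [← h2]
        · rw [← h2]
        · rw [← h2]
      obtain ⟨Q, hQ⟩ : ∃ Q : ℕ, Q = 2 ^ (lam (2 * k) y * p.1) := ⟨_, rfl⟩
      obtain ⟨Θ, hΘ⟩ : ∃ Θ : ℕ, Θ = 2 ^ p.2.2 := ⟨_, rfl⟩
      have hQ4 : 4 ≤ Q := by
        have h1 : 1 ≤ p.1 := by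
          rw [← (hp x₀ hx₀).2.1]
          exact hu1 _
        have h2 : 2 ≤ lam (2 * k) y * p.1 := by
          have : 2 ≤ lam (2 * k) y := by
            unfold lam
            omega
          nlinarith
        rw [hQ]
        calc 4 = 2 ^ 2 := by norm_num
          _ ≤ _ := Nat.pow_le_pow_right (by norm_num) h2
      have hΘ1 : 1 ≤ Θ := by rw [hΘ]; exact Nat.one_le_two_pow
      have : Nonempty (Fin Q) := ⟨⟨0, by omega⟩⟩
      have : Nonempty (Fin Θ) := ⟨⟨0, by omega⟩⟩
      obtain ⟨Fh, hFh⟩ := avg (Ω := (Fin r → Fin Q) × (Fin n → Fin Θ))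
        (G.filter fun x => par (rec x) = p)
        (fun x Fh => ¬ Good D E p.2.1 (t x) Fh.1 Fh.2) (Real.exp ex) 3 (by
          intro x hx
          obtain ⟨a1, a2, a3, a4⟩ := hp x hx
          have h1 := hAna (wR (rec x)) r (t x) (hne x) (hsum x) a1
          rw [a2, a3, a4, ← hQ, ← hΘ, ← hD, ← hE] at h1
          have h2 := hC k D E Q Θ n r ℓ p.2.1 hk hD1 hE1 hQ4 hΘ1 hn hℓ hrl (t x) (hcard x) h1
          have h3 : ex = (n : ℝ) / (16 * k * E ^ 2 * D ^ 2 * ℓ) := by
            rw [hex, hD, hE]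
            push_cast
            rfl
          rw [h3]
          refine h2.trans (le_of_eq ?_)
          rw [Fintype.card_prod, Fintype.card_fun, Fintype.card_fun, Fintype.card_fin,
            Fintype.card_fin, Fintype.card_fin, Fintype.card_fin]
          push_cast
          ring)
      refine ⟨(fun s => (Fh.1 s : ℕ), univ.filter fun i => (Fh.2 i : ℕ) = 0), ?_⟩
      refine le_trans (mul_le_mul_of_nonneg_right ?_ (Real.exp_pos _).le) hFh
      have h4 : ((G.filter fun x => par (rec x) = p).filter fun x =>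
          ¬ Fair D E p.2.1 (t x) (fun s => (Fh.1 s : ℕ)) (univ.filter fun i => (Fh.2 i : ℕ) = 0)) ⊆
          (G.filter fun x => par (rec x) = p).filter fun x =>
            ¬ Good D E p.2.1 (t x) Fh.1 Fh.2 := by
        intro x hx
        obtain ⟨h5, h6⟩ := mem_filter.1 hx
        exact mem_filter.2 ⟨h5, fun h7 => h6 (fair_of_good h7)⟩
      have h8 := card_le_card h4
      exact Nat.cast_le.2 h8
  choose FZ hFZ using key
  refine ⟨S, fun ρ => (par ρ).2.1, fun ρ => (FZ (par ρ)).1, fun ρ => (FZ (par ρ)).2, ?_⟩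
  obtain ⟨Bd, hBd⟩ : ∃ Bd : Finset X, Bd = univ.filter fun x => ¬ Fair (2 ^ dx (2 * k) y) (2 ^ y)
      ((par fun a => trn (2 * k + 1) (t x (S a))).2.1) (t x)
        (FZ (par fun a => trn (2 * k + 1) (t x (S a)))).1
          (FZ (par fun a => trn (2 * k + 1) (t x (S a)))).2 := ⟨_, rfl⟩
  have hgoal : (Bd.card : ℝ) ≤ (4 * k * Real.exp (-((σ : ℝ) / (2 * 4 ^ ee (2 * k) y))) +
      3 * Real.exp (-((n : ℝ) / (16 * k * (2 ^ y) ^ 2 * (2 ^ dx (2 * k) y) ^ 2 * ℓ)))) *
        Fintype.card X := by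
    have hmem : ∀ x, x ∈ Bd ↔ ¬ Fair D E (par (rec x)).2.1 (t x) (FZ (par (rec x))).1
        (FZ (par (rec x))).2 := by
      intro x
      rw [hBd, mem_filter, hD, hE, hrec]
      simp only [mem_univ, true_and]
    have hcov : Bd ⊆ (univ.filter fun x => ¬ Acc (2 * k) (ee (2 * k) y) σ (cnt (t x) S) (t x)) ∪
        (G.filter fun x => x ∈ Bd) := by
      intro x hx
      rw [mem_union, mem_filter, mem_filter]
      by_cases h : Acc (2 * k) (ee (2 * k) y) σ (cnt (t x) S) (t x)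
      · refine Or.inr ⟨?_, hx⟩
        rw [hG]
        exact mem_filter.2 ⟨mem_univ _, h⟩
      · exact Or.inl ⟨mem_univ _, h⟩
    have h1 := (card_le_card hcov).trans (card_union_le _ _)
    have h1' : (Bd.card : ℝ) ≤ ((univ.filter fun x =>
        ¬ Acc (2 * k) (ee (2 * k) y) σ (cnt (t x) S) (t x)).card : ℝ) +
        ((G.filter fun x => x ∈ Bd).card : ℝ) := by exact_mod_cast h1
    have h2 : ((G.filter fun x => x ∈ Bd).card : ℝ) * Real.exp ex ≤ 3 * (G.card : ℝ) := by
      obtain ⟨I, hI⟩ : ∃ I : Finset (ℕ × ℕ × ℕ), I = univ.image fun x => par (rec x) := ⟨_, rfl⟩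
      have hmI : ∀ x, par (rec x) ∈ I := by
        intro x
        rw [hI]
        exact mem_image_of_mem _ (mem_univ _)
      have e1 : ((G.filter fun x => x ∈ Bd).card : ℝ) =
          ∑ p ∈ I, (((G.filter fun x => x ∈ Bd).filter fun x => par (rec x) = p).card : ℝ) := by
        rw [card_eq_sum_card_fiberwise (f := fun x => par (rec x)) (t := I) fun x _ => hmI x]
        push_cast
        rfl
      have e2 : (G.card : ℝ) = ∑ p ∈ I, ((G.filter fun x => par (rec x) = p).card : ℝ) := by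
        rw [card_eq_sum_card_fiberwise (f := fun x => par (rec x)) (t := I) fun x _ => hmI x]
        push_cast
        rfl
      rw [e1, e2, sum_mul, mul_sum]
      refine sum_le_sum fun p _ => ?_
      refine le_trans (mul_le_mul_of_nonneg_right ?_ (Real.exp_pos _).le) (hFZ p)
      have h4 : ((G.filter fun x => x ∈ Bd).filter fun x => par (rec x) = p) ⊆
          (G.filter fun x => par (rec x) = p).filter fun x =>
            ¬ Fair D E p.2.1 (t x) (FZ p).1 (FZ p).2 := by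
        intro x hx
        obtain ⟨h5, h6⟩ := mem_filter.1 hx
        obtain ⟨h7, h8⟩ := mem_filter.1 h5
        have h9 := (hmem x).1 h8
        rw [h6] at h9
        exact mem_filter.2 ⟨mem_filter.2 ⟨h7, h6⟩, h9⟩
      exact_mod_cast card_le_card h4
    have h3 : (G.card : ℝ) ≤ Fintype.card X := by exact_mod_cast card_le_univ G
    have h5 : ((G.filter fun x => x ∈ Bd).card : ℝ) ≤ 3 * Real.exp (-ex) * Fintype.card X := by
      have h6 : ((G.filter fun x => x ∈ Bd).card : ℝ) =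
          ((G.filter fun x => x ∈ Bd).card : ℝ) * Real.exp ex * Real.exp (-ex) := by
        rw [mul_assoc, ← Real.exp_add, add_neg_cancel, Real.exp_zero, mul_one]
      rw [h6]
      calc ((G.filter fun x => x ∈ Bd).card : ℝ) * Real.exp ex * Real.exp (-ex)
          ≤ 3 * (Fintype.card X : ℝ) * Real.exp (-ex) :=
            mul_le_mul_of_nonneg_right (h2.trans (by linarith)) (Real.exp_pos _).le
        _ = _ := by ring
    have h7 : ((univ.filter fun x => ¬ Acc (2 * k) (ee (2 * k) y) σ (cnt (t x) S) (t x)).card : ℝ) ≤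
        4 * k * Real.exp (-((σ : ℝ) / (2 * 4 ^ ee (2 * k) y))) * Fintype.card X := by
      rw [card_univ] at hSS
      obtain ⟨w, hw⟩ : ∃ w : ℝ, w = (σ : ℝ) / (2 * 4 ^ ee (2 * k) y) := ⟨_, rfl⟩
      rw [← hw] at hSS ⊢
      obtain ⟨c, hc⟩ : ∃ c : ℝ, c = ((univ.filter fun x =>
        ¬ Acc (2 * k) (ee (2 * k) y) σ (cnt (t x) S) (t x)).card : ℝ) := ⟨_, rfl⟩
      rw [← hc] at hSS ⊢
      have h8 : c = c * Real.exp w * Real.exp (-w) := by
        rw [mul_assoc, ← Real.exp_add, add_neg_cancel, Real.exp_zero, mul_one]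
      rw [h8]
      calc c * Real.exp w * Real.exp (-w) ≤ 4 * k * (Fintype.card X : ℝ) * Real.exp (-w) :=
            mul_le_mul_of_nonneg_right hSS (Real.exp_pos _).le
        _ = _ := by ring
    rw [← hex, add_mul]
    linarith
  rw [hBd] at hgoal
  exact hgoal

end Pool.Agent.L0h58.HM
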