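import Pool.Agent.L0h58.HM.Thin
import Pool.Agent.L0h58.HM.Lab
import Pool.Agent.L0h58.HN.Det

/-!
# The deterministic core, with short records
-/

set_option autoImplicit false

namespace Pool.Agent.L0h58.HM

open Finset Pool.Agent.L0h32.LT Pool.Agent.L0h32.LT2 Pool.Agent.L0h58.HN

/-- The exceptional part, as a fraction of the inputs. -/
noncomputable def exc2 (k y n r ℓ σ e Δ v : ℕ) : ℝ :=
  4 * k * Real.exp (-((σ : ℝ) / (2 * 4 ^ ee (2 * k) y))) +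
    3 * Real.exp (-((n : ℝ) / (16 * k * (2 ^ y) ^ 2 * (2 ^ dx (2 * k) y) ^ 2 * ℓ))) +
    2 * (v : ℝ) ^ (r + 1) * ((r : ℝ) + 1) ^ ((2 * k + 1) * σ) * (Idx n e).card / 2 ^ Δ

open Classical in
/-- **DET2.** A machine cannot avoid the ones of the function. -/
def S_DET2 : Prop :=
  ∀ (k y n r ℓ σ K N ρ s Δ m e : ℕ) (F : Type) [Field F] [Fintype F] [Algebra (ZMod 2) F]
    (ι : (Fin ρ → ZMod 2) ≃ₗ[ZMod 2] F) (M : Fin n → (Fin K × Fin 6 × Fin ρ → ZMod 2))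
    (τ : Fin N → F), Function.Injective τ → 4 ≤ N → N ^ 2 ≤ Fintype.card F →
    Fintype.card F = 2 ^ ρ → s + 2 * (3 * Δ) + 2 * ρ ≤ ρ * K → 2 * N ≤ 2 ^ (3 * Δ) →
    1 ≤ k → 1 ≤ n → 1 ≤ σ → 1 ≤ ℓ → r * ℓ ≤ k * n →
    2 * 2 ^ dx (2 * k) y * m ≤ n → 16 * n < 2 ^ y * 2 ^ dx (2 * k) y * (e + 1) →
    (∀ A : Finset (Fin n), m ≤ A.card →
      K * (6 * ρ) ≤ Module.finrank (ZMod 2) (Submodule.span (ZMod 2) (M '' A)) + s) →
    ∀ (V : Type) [Finite V] (P : Mach n V) (v₀ : V),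
      (∀ (β : ℕ → V) (x : Inp n) (i : Fin n), (tt P ℓ β r x i).Nonempty) →
      ∀ W : Set V,
        (N : ℝ) * (univ.filter fun x : Inp n => bd P ℓ v₀ x r ∈ W).card ≤
          (Fintype.card F : ℝ) * (univ.filter fun x : Inp n => bd P ℓ v₀ x r ∈ W ∧
              ∃ t, qf (ev τ (blk M ι x) t) = 0).card +
            (2 * ((s + 2 * (3 * Δ)) / ρ : ℕ) + 2) * (univ.filter fun x : Inp n =>
              bd P ℓ v₀ x r ∈ W).card +
            N * (exc2 k y n r ℓ σ e (3 * Δ) (Nat.card V) * 2 ^ n)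

theorem t_DET2 (hlab : S_LAB2) (hrct : S_RCT) : S_DET2 := by
  classical
  intro k y n r ℓ σ K N ρ s Δ m e F _ _ _ ι M τ hτ hN4 hNq hq hrk1 h2N hk hn hσ hℓ hrl hm he hrk
    V _ P v₀ hcov W
  obtain ⟨S, j, Fl, Z, hbad⟩ := hlab k y n r ℓ σ (Inp n) (fun x => tt P ℓ (bd P ℓ v₀ x) r x) hk hn
    hσ hℓ hrl (fun x i => hcov _ x i) (by
      intro x s
      have h1 : (univ.filter fun i => s ∈ tt P ℓ (bd P ℓ v₀ x) r x i) =
          seg P ℓ (bd P ℓ v₀ x) x s := by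
        ext i
        simp [tt]
      rw [h1]
      exact card_rd_le _ _ _ _ _)
  obtain ⟨D, hD⟩ : ∃ D, D = 2 ^ dx (2 * k) y := ⟨_, rfl⟩
  obtain ⟨E, hE⟩ : ∃ E, E = 2 ^ y := ⟨_, rfl⟩
  have hD0 : 0 < D := by rw [hD]; positivity
  rw [← hD] at hm
  rw [← hD, ← hE] at he
  obtain ⟨nf, hnf⟩ : ∃ nf : Finset (Inp n), nf = univ.filter fun x : Inp n =>
      ¬ Fair (2 ^ dx (2 * k) y) (2 ^ y) (j fun a => trn (2 * k + 1) (tt P ℓ (bd P ℓ v₀ x) r x (S a)))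
        (tt P ℓ (bd P ℓ v₀ x) r x) (Fl fun a => trn (2 * k + 1) (tt P ℓ (bd P ℓ v₀ x) r x (S a)))
          (Z fun a => trn (2 * k + 1) (tt P ℓ (bd P ℓ v₀ x) r x (S a))) := ⟨_, rfl⟩
  rw [← hnf] at hbad
  obtain ⟨bad, hb⟩ : ∃ bad : Finset (Inp n), bad = nf ∪ (Thn P ℓ r v₀ (2 * k + 1) S Fl Z j e Δ 0 ∪
      Thn P ℓ r v₀ (2 * k + 1) S Fl Z j e Δ 1) := ⟨_, rfl⟩
  have hmain := part (key P ℓ r v₀ (2 * k + 1) S Fl Z) (univ.filter fun x : Inp n => bd P ℓ v₀ x r ∈ W) bad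
    (fun x => ∃ t, qf (ev τ (blk M ι x) t) = 0) N (Fintype.card F)
    (2 * ((s + 2 * (3 * Δ)) / ρ) + 2) ?_ ?_
  · -- the final computation
    have h0 := thin P ℓ r v₀ (2 * k + 1) S Fl Z j e Δ 0 1 (Or.inl ⟨rfl, rfl⟩)
    have h1 := thin P ℓ r v₀ (2 * k + 1) S Fl Z j e Δ 1 0 (Or.inr ⟨rfl, rfl⟩)
    have hcb : bad.card ≤ nf.card + ((Thn P ℓ r v₀ (2 * k + 1) S Fl Z j e Δ 0).card +
        (Thn P ℓ r v₀ (2 * k + 1) S Fl Z j e Δ 1).card) := by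
      rw [hb]
      exact (card_union_le _ _).trans (Nat.add_le_add_left (card_union_le _ _) _)
    generalize (Thn P ℓ r v₀ (2 * k + 1) S Fl Z j e Δ 0).card = a0 at h0 hcb
    generalize (Thn P ℓ r v₀ (2 * k + 1) S Fl Z j e Δ 1).card = a1 at h1 hcb
    rw [filter_filter] at hmain
    have hmain' : (N : ℝ) * (univ.filter fun x : Inp n => bd P ℓ v₀ x r ∈ W).card ≤
        (Fintype.card F : ℝ) * (univ.filter fun x : Inp n => bd P ℓ v₀ x r ∈ W ∧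
          ∃ t, qf (ev τ (blk M ι x) t) = 0).card +
        (2 * ((s + 2 * (3 * Δ)) / ρ : ℕ) + 2) * (univ.filter fun x : Inp n =>
          bd P ℓ v₀ x r ∈ W).card + N * bad.card := by exact_mod_cast hmain
    refine hmain'.trans ?_
    refine add_le_add_right (mul_le_mul_of_nonneg_left ?_ (Nat.cast_nonneg _)) _
    have hcb' : (bad.card : ℝ) ≤ nf.card + (a0 + a1) := by exact_mod_cast hcb
    have hI : ((Fintype.card (Inp n) : ℕ) : ℝ) = 2 ^ n := by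
      rw [Fintype.card_fun, Fintype.card_bool, Fintype.card_fin]
      push_cast
      rfl
    rw [hI] at hbad
    have h0' : (a0 : ℝ) * 2 ^ (3 * Δ) ≤
        (Nat.card V : ℝ) ^ (r + 1) * ((r : ℝ) + 1) ^ ((2 * k + 1) * σ) * (((Idx n e).card : ℝ) * 2 ^ n) := by
      exact_mod_cast h0
    have h1' : (a1 : ℝ) * 2 ^ (3 * Δ) ≤
        (Nat.card V : ℝ) ^ (r + 1) * ((r : ℝ) + 1) ^ ((2 * k + 1) * σ) * (((Idx n e).card : ℝ) * 2 ^ n) := by
      exact_mod_cast h1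
    have h2 : (a0 : ℝ) + a1 ≤ 2 * (Nat.card V : ℝ) ^ (r + 1) * ((r : ℝ) + 1) ^ ((2 * k + 1) * σ) *
        (Idx n e).card / 2 ^ (3 * Δ) * 2 ^ n := by
      rw [div_mul_eq_mul_div, le_div_iff₀ (by positivity)]
      linarith
    unfold exc2
    linarith
  · -- the acceptance depends on the class
    intro x x' hxx' hx
    have h1 := ((key_iff P ℓ r v₀ (2 * k + 1) S Fl Z x x').1 hxx').1
    have h2 := congrFun h1 ⟨r, by omega⟩
    unfold stl at h2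
    dsimp only at h2
    refine mem_filter.2 ⟨mem_univ _, ?_⟩
    rw [← h2]
    exact (mem_filter.1 hx).2
  · intro x _ hex
    obtain ⟨z, hzx, hz⟩ := hex
    rw [← hzx]
    rw [hb, mem_union, mem_union, not_or, not_or] at hz
    obtain ⟨hz0, hz1, hz2⟩ := hz
    have hfair : Fair D E (j (rcd P ℓ r v₀ (2 * k + 1) S z)) (tt P ℓ (bd P ℓ v₀ z) r z)
        (Fl (rcd P ℓ r v₀ (2 * k + 1) S z)) (Z (rcd P ℓ r v₀ (2 * k + 1) S z)) := by
      by_contra hcon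
      apply hz0
      rw [hnf]
      refine mem_filter.2 ⟨mem_univ _, ?_⟩
      rw [← hD, ← hE]
      exact hcon
    obtain ⟨hf0, hf1, hf2⟩ := hfair
    have hA : m ≤ (La P ℓ r v₀ (2 * k + 1) S Fl Z 0 z).card := le_of_div hD0 hm hf0
    have hB : m ≤ (La P ℓ r v₀ (2 * k + 1) S Fl Z 1 z).card := le_of_div hD0 hm hf1
    have hEx : (Exx P ℓ r v₀ (2 * k + 1) S Fl Z j z).card ≤ e := by
      have h5 := hf2.trans_lt he
      have h6 := Nat.lt_of_mul_lt_mul_left h5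
      exact Nat.lt_succ_iff.1 h6
    have hthin : ∀ a, z ∉ Thn P ℓ r v₀ (2 * k + 1) S Fl Z j e Δ a → 2 ^ (La P ℓ r v₀ (2 * k + 1) S Fl Z a z).card <
        ((univ.filter fun y => key P ℓ r v₀ (2 * k + 1) S Fl Z y = key P ℓ r v₀ (2 * k + 1) S Fl Z z).image
          (rst (La P ℓ r v₀ (2 * k + 1) S Fl Z a z))).card * 2 ^ (3 * Δ) := by
      intro a ha
      by_contra hcon
      apply ha
      unfold Thn
      exact mem_filter.2 ⟨mem_univ _, hEx, not_lt.1 hcon⟩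
    have hdis : Disjoint (La P ℓ r v₀ (2 * k + 1) S Fl Z 0 z) (La P ℓ r v₀ (2 * k + 1) S Fl Z 1 z) := by
      rw [disjoint_left]
      intro i hi hi'
      obtain ⟨t, ht⟩ := hcov (bd P ℓ v₀ z) z i
      have e1 := (mem_filter.1 hi).2 t ht
      have e2 := (mem_filter.1 hi').2 t ht
      omega
    have hR := hrct n K N ρ s (3 * Δ) F ι M τ hτ hN4 hNq hq hrk1 h2N _ _ hdis (hrk _ hA) (hrk _ hB)
      (univ.filter fun y => key P ℓ r v₀ (2 * k + 1) S Fl Z y = key P ℓ r v₀ (2 * k + 1) S Fl Z z) ?_ ?_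
      (hthin 0 hz1) (hthin 1 hz2)
    · exact hR
    · intro u hu v hv i hi hi'
      have gu := (key_iff P ℓ r v₀ (2 * k + 1) S Fl Z u z).1 (mem_filter.1 hu).2
      have gv := (key_iff P ℓ r v₀ (2 * k + 1) S Fl Z v z).1 (mem_filter.1 hv).2
      rw [gu.2.2.2.2 i (by rw [gu.2.2.1]; exact hi) (by rw [gu.2.2.2.1]; exact hi'),
        gv.2.2.2.2 i (by rw [gv.2.2.1]; exact hi) (by rw [gv.2.2.2.1]; exact hi')]
    · intro u hu v hv
      have gu := (key_iff P ℓ r v₀ (2 * k + 1) S Fl Z u z).1 (mem_filter.1 hu).2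
      have gv := (key_iff P ℓ r v₀ (2 * k + 1) S Fl Z v z).1 (mem_filter.1 hv).2
      exact mem_filter.2 ⟨mem_univ _, (key_iff P ℓ r v₀ (2 * k + 1) S Fl Z _ z).2 (cls_mix gu gv)⟩

end Pool.Agent.L0h58.HM
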