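import Pool.Agent.L0h58.HN.Core
import Pool.Agent.L0h58.HM.Det

/-!
# Numerical part
-/

set_option autoImplicit false

namespace Pool.Agent.L0h58.HM

open Finset Pool.Agent.L0h32.LT Pool.Agent.L0h32.LT2 Pool.Agent.L0h58.HN

theorem term1' {k' h a σ : ℕ} (hk : 1 ≤ k') (hh : 1 ≤ h) (ha : 1 ≤ a)
    (hσ : σ = 2 * a * (4 + 2 * k') * h) :
    4 * (k' : ℝ) * Real.exp (-((σ : ℝ) / (2 * a))) ≤ 1 / 8 * (1 / 2) ^ h := by
  have har : (0 : ℝ) < a := by exact_mod_cast ha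
  have hkr : (1 : ℝ) ≤ k' := by exact_mod_cast hk
  have hhr : (1 : ℝ) ≤ h := by exact_mod_cast hh
  have h1 : (σ : ℝ) / (2 * a) = 4 * h + 2 * k' * h := by
    rw [hσ]
    push_cast
    field_simp
  rw [h1, neg_add, Real.exp_add]
  have h2 := exp_neg_four h hh
  have h3 : Real.exp (-(2 * k' * h)) ≤ 1 / (2 * k') := by
    rw [Real.exp_neg, one_div]
    apply inv_anti₀ (by positivity)
    have h4 : (2 : ℝ) * k' * h + 1 ≤ Real.exp (2 * k' * h) := Real.add_one_le_exp _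
    have h5 : (2 : ℝ) * k' * 1 ≤ 2 * k' * h := mul_le_mul_of_nonneg_left hhr (by positivity)
    linarith
  have h4 : Real.exp (-(4 * h)) * Real.exp (-(2 * k' * h)) ≤
      (1 / 16 * (1 / 2) ^ h) * (1 / (2 * k')) :=
    mul_le_mul h2 h3 (Real.exp_pos _).le (by positivity)
  calc 4 * (k' : ℝ) * (Real.exp (-(4 * h)) * Real.exp (-(2 * k' * h))) ≤
      4 * (k' : ℝ) * ((1 / 16 * (1 / 2) ^ h) * (1 / (2 * k'))) :=
        mul_le_mul_of_nonneg_left h4 (by positivity)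
    _ = 1 / 8 * (1 / 2) ^ h := by
      field_simp
      norm_num

theorem term2' {h : ℕ} {A B n : ℝ} (hh : 1 ≤ h) (hB : 0 < B) (hn : 4 * h * B ≤ n)
    (hA : A = n / B) : Real.exp (-A) ≤ 1 / 16 * (1 / 2) ^ h := by
  have h1 : 4 * (h : ℝ) ≤ A := by
    rw [hA, le_div_iff₀ hB]
    exact hn
  exact (Real.exp_le_exp.2 (by linarith)).trans (exp_neg_four h hh)

theorem term3' {r v n Δ b e I a l h : ℕ} {γ : ℝ}
    (hI : I * 2 ^ (b * n) ≤ 2 ^ (b * e) * (2 ^ b + 2) ^ n) (hv : (v : ℝ) ≤ 2 ^ (γ * n))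
    (hr : (r + 1) ^ a ≤ 2 ^ l)
    (hnum : 16 + ((l + h : ℕ) : ℝ) + (r + 1) * (γ * n) + b * e + 4 * n / 2 ^ b < (Δ : ℝ)) :
    2 * (v : ℝ) ^ (r + 1) * ((r : ℝ) + 1) ^ a * I / 2 ^ Δ ≤ 1 / 8 * (1 / 2) ^ h := by
  by_contra hcon
  rw [not_le, lt_div_iff₀ (by positivity), one_div_pow] at hcon
  have hr' : ((r : ℝ) + 1) ^ a ≤ 2 ^ l := by exact_mod_cast hr
  have h1 : (2 : ℝ) ^ Δ < 16 * (v : ℝ) ^ (r + 1) * I * 2 ^ (l + h) := by
    have h3 : 1 / 8 * (1 / (2 : ℝ) ^ h) * 2 ^ Δ * (8 * 2 ^ h) <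
        2 * (v : ℝ) ^ (r + 1) * ((r : ℝ) + 1) ^ a * I * (8 * 2 ^ h) :=
      mul_lt_mul_of_pos_right hcon (by positivity)
    have h4 : 1 / 8 * (1 / (2 : ℝ) ^ h) * 2 ^ Δ * (8 * 2 ^ h) = 2 ^ Δ := by
      field_simp
    rw [h4] at h3
    refine h3.trans_le ?_
    have h5 : 2 * (v : ℝ) ^ (r + 1) * ((r : ℝ) + 1) ^ a * I * (8 * 2 ^ h) =
        (16 * (v : ℝ) ^ (r + 1) * I * 2 ^ h) * ((r : ℝ) + 1) ^ a := by ring
    have h6 : 16 * (v : ℝ) ^ (r + 1) * I * 2 ^ (l + h) =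
        (16 * (v : ℝ) ^ (r + 1) * I * 2 ^ h) * 2 ^ l := by
      rw [pow_add]
      ring
    rw [h5, h6]
    exact mul_le_mul_of_nonneg_left hr' (by positivity)
  have h2 : 2 ^ Δ ≤ 16 * v ^ (r + 1) * I * 2 ^ (l + h) := by
    have h6 : ((2 ^ Δ : ℕ) : ℝ) < ((16 * v ^ (r + 1) * I * 2 ^ (l + h) : ℕ) : ℝ) := by
      push_cast
      exact h1
    exact (Nat.cast_lt.1 h6).le
  have h3 := num h2 hI hv
  push_cast at h3 hnum
  linarith

/-- The exponents. -/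
theorem expo' {n D E C2 C3 W r σ h d e Δ a l : ℕ} (hD1 : 1 ≤ D) (hE : 2 ^ 17 * (d + 15) ≤ E)
    (hW : W = 4096 * D * ((C3 + 1) * (a * C2 + 1))) (hh : 1 ≤ h) (hl : 1 ≤ l)
    (hhn : W * (h * l) ≤ n) (hn : 8192 * D ≤ n) (hr : r + 1 ≤ C3 * h) (hσ : σ = C2 * h)
    (he : E * D * e ≤ 16 * n) (hΔ : n < 512 * D * (Δ + 1)) (hD : D = 2 ^ d) :
    16 + (((C3 + 1) * l * (a * σ) + h : ℕ) : ℝ) + (r + 1) * (1 / (W * h) * n) +
      (d + 12 : ℕ) * e + 4 * n / 2 ^ (d + 12) < ((3 * Δ : ℕ) : ℝ) := by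
  have hDr : (0 : ℝ) < D := by exact_mod_cast hD1
  have hhr : (1 : ℝ) ≤ h := by exact_mod_cast hh
  have hlr : (1 : ℝ) ≤ l := by exact_mod_cast hl
  have hW0 : (0 : ℝ) < W := by
    have : 0 < W := by rw [hW]; positivity
    exact_mod_cast this
  obtain ⟨u, hu⟩ : ∃ u : ℝ, u = n / (8192 * D) := ⟨_, rfl⟩
  have hn' : (n : ℝ) = 8192 * D * u := by
    rw [hu]
    field_simp
  have hu1 : 1 ≤ u := by
    rw [hu, le_div_iff₀ (by positivity), one_mul]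
    exact_mod_cast hn
  have a1 : (C3 + 1) * (a * C2 + 1) * (h * l) * (4096 * D) ≤ n := by
    refine le_trans (le_of_eq ?_) hhn
    rw [hW]
    ring
  have a1r : ((C3 : ℝ) + 1) * (a * C2 + 1) * (h * l) ≤ 2 * u := by
    have : (((C3 + 1) * (a * C2 + 1) * (h * l) * (4096 * D) : ℕ) : ℝ) ≤ n := by exact_mod_cast a1
    push_cast at this
    rw [hn'] at this
    have h2 : ((C3 : ℝ) + 1) * (a * C2 + 1) * (h * l) * (4096 * D) ≤ (2 * u) * (4096 * D) := by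
      linarith
    exact le_of_mul_le_mul_right h2 (by positivity)
  have a2 : (((C3 + 1) * l * (a * σ) : ℕ) : ℝ) = ((C3 : ℝ) + 1) * (a * C2) * (h * l) := by
    rw [hσ]
    push_cast
    ring
  have a3 : (h : ℝ) ≤ ((C3 : ℝ) + 1) * 1 * (h * l) := by
    have h1 : (h : ℝ) * 1 ≤ h * l := mul_le_mul_of_nonneg_left hlr (by positivity)
    have h2 : (1 : ℝ) * (h * l) ≤ (C3 + 1) * (h * l) := by
      apply mul_le_mul_of_nonneg_right _ (by positivity)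
      have : (0 : ℝ) ≤ C3 := Nat.cast_nonneg _
      linarith
    linarith
  have a8 : ((C3 : ℝ) + 1) * (a * C2 + 1) * (h * l) =
      ((C3 : ℝ) + 1) * (a * C2) * (h * l) + ((C3 : ℝ) + 1) * 1 * (h * l) := by ring
  have a4 : ((r : ℝ) + 1) * (1 / (W * h) * n) ≤ 2 * u := by
    have h1 : ((r : ℝ) + 1) ≤ C3 * h := by exact_mod_cast hr
    have h2 : ((r : ℝ) + 1) * (1 / (W * h) * n) ≤ C3 * h * (1 / (W * h) * n) :=
      mul_le_mul_of_nonneg_right h1 (by positivity)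
    refine h2.trans ?_
    have h3 : (C3 : ℝ) * h * (1 / (W * h) * n) = C3 * n / W := by
      field_simp
    rw [h3, div_le_iff₀ hW0]
    have h4 : (C3 : ℝ) * (4096 * D) ≤ W := by
      have : C3 * (4096 * D) ≤ W := by
        rw [hW]
        calc C3 * (4096 * D) = 4096 * D * (C3 * 1) := by ring
          _ ≤ 4096 * D * ((C3 + 1) * (a * C2 + 1)) :=
            Nat.mul_le_mul_left _ (Nat.mul_le_mul (by omega) (by omega))
      exact_mod_cast this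
    rw [hn']
    calc (C3 : ℝ) * (8192 * D * u) = 2 * u * (C3 * (4096 * D)) := by ring
      _ ≤ 2 * u * W := mul_le_mul_of_nonneg_left h4 (by positivity)
  have a5 : ((d + 12 : ℕ) : ℝ) * e ≤ u := by
    have h1 : 2 ^ 17 * (d + 15) * D * e ≤ 16 * n := by
      refine le_trans ?_ he
      exact Nat.mul_le_mul_right _ (Nat.mul_le_mul_right _ hE)
    have h2 : (d + 12) * e * (8192 * D) ≤ n := by
      have h3 : 16 * ((d + 12) * e * (8192 * D)) ≤ 2 ^ 17 * (d + 15) * D * e := by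
        have h4 : 16 * ((d + 12) * e * (8192 * D)) = 2 ^ 17 * (d + 12) * D * e := by ring
        rw [h4]
        exact Nat.mul_le_mul_right _ (Nat.mul_le_mul_right _ (Nat.mul_le_mul_left _ (by omega)))
      omega
    rw [hu, le_div_iff₀ (by positivity)]
    exact_mod_cast h2
  have a6 : 4 * (n : ℝ) / 2 ^ (d + 12) = 8 * u := by
    have h1 : (2 : ℝ) ^ (d + 12) = D * 4096 := by
      rw [pow_add, hD]
      push_cast
      norm_num
    rw [h1, hn']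
    field_simp
    norm_num
  have a7 : 16 * u - 1 < (Δ : ℝ) := by
    have h1 : (n : ℝ) < 512 * D * (Δ + 1) := by exact_mod_cast hΔ
    rw [hn'] at h1
    have h2 : (512 * D : ℝ) * (16 * u) < 512 * D * (Δ + 1) := by linarith
    have h3 := lt_of_mul_lt_mul_left h2 (by positivity)
    linarith
  push_cast at a2 a5 ⊢
  linarith

/-- The segments. -/
theorem segments' {k k' C1 C3 n h : ℕ} (hk' : k' = k + 2) (hC11 : 1 ≤ C1)
    (hC3 : C3 = 2 * C1 * (k + 1) + 2) (hh : 1 ≤ h) (hC1h : C1 * h ≤ n) :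
    ∃ ℓ r : ℕ, 1 ≤ ℓ ∧ C1 * h * ℓ ≤ n ∧ (k + 1) * n ≤ r * ℓ ∧ r * ℓ ≤ k' * n ∧
      r + 1 ≤ C3 * h := by
  obtain ⟨ℓ, hℓ⟩ : ∃ ℓ, ℓ = n / (C1 * h) := ⟨_, rfl⟩
  have hpos1 : 0 < C1 * h := by positivity
  have hℓ1 : 1 ≤ ℓ := by
    rw [hℓ, Nat.le_div_iff_mul_le hpos1]
    omega
  have hℓ2 : C1 * h * ℓ ≤ n := by
    rw [hℓ]
    exact Nat.mul_div_le _ _
  have hℓ3 : n < C1 * h * (ℓ + 1) := by
    rw [hℓ]
    exact Nat.lt_mul_div_succ _ hpos1
  obtain ⟨r, hr⟩ : ∃ r, r = (k + 1) * n / ℓ + 1 := ⟨_, rfl⟩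
  refine ⟨ℓ, r, hℓ1, hℓ2, ?_, ?_, ?_⟩
  · have := Nat.lt_mul_div_succ ((k + 1) * n) (show 0 < ℓ by omega)
    rw [hr, mul_comm _ ℓ]
    exact this.le
  · have h1 := Nat.div_mul_le_self ((k + 1) * n) ℓ
    have h2 : ℓ ≤ n := by
      rw [hℓ]
      exact Nat.div_le_self _ _
    have h3 : r * ℓ = (k + 1) * n / ℓ * ℓ + ℓ := by
      rw [hr]
      ring
    have h4 : k' * n = (k + 1) * n + n := by
      rw [hk']
      ring
    omega
  · have h0 : n ≤ 2 * C1 * h * ℓ := by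
      have e1 : C1 * h * (ℓ + 1) = C1 * h * ℓ + C1 * h * 1 := by ring
      have e2 : 2 * C1 * h * ℓ = C1 * h * ℓ + C1 * h * ℓ := by ring
      have e3 : C1 * h * 1 ≤ C1 * h * ℓ := Nat.mul_le_mul_left _ hℓ1
      omega
    have h1 : (k + 1) * n ≤ (k + 1) * (2 * C1 * h) * ℓ := by
      rw [mul_assoc]
      exact Nat.mul_le_mul_left _ h0
    have h2 : (k + 1) * n / ℓ ≤ (k + 1) * (2 * C1 * h) :=
      (Nat.div_le_div_right h1).trans (by rw [Nat.mul_div_cancel _ (by omega)])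
    have h3 : C3 * h = (k + 1) * (2 * C1 * h) + 2 * h := by
      rw [hC3]
      ring
    omega

/-- The exceptional part is small. -/
theorem exc_le' {k' y n r ℓ σ e Δ v h d D E C1 C2 C3 W : ℕ} (hk : 1 ≤ k') (hh : 1 ≤ h)
    (hd : d = dx (2 * k') y) (hD : D = 2 ^ d) (hE : E = 2 ^ y) (hy : 2 ^ 17 * (d + 15) ≤ E)
    (hC1 : C1 = 64 * k' * E ^ 2 * D ^ 2) (hC2 : C2 = 2 * 4 ^ ee (2 * k') y * (4 + 2 * k'))
    (hW : W = 4096 * D * ((C3 + 1) * ((2 * k' + 1) * C2 + 1)))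
    (hℓ1 : 1 ≤ ℓ) (hℓ : C1 * h * ℓ ≤ n)
    (hr : r + 1 ≤ C3 * h) (hσ : σ = C2 * h) (hWh : W * (h * (Nat.log 2 n + 1)) ≤ n)
    (hn : 8192 * D ≤ n)
    (he : E * D * e ≤ 16 * n) (hΔ : n < 512 * D * (Δ + 1))
    (hI : (Idx n e).card * 2 ^ ((d + 12) * n) ≤ 2 ^ ((d + 12) * e) * (2 ^ (d + 12) + 2) ^ n)
    (hv : (v : ℝ) ≤ 2 ^ ((n : ℝ) / (W * h))) :
    exc2 k' y n r ℓ σ e (3 * Δ) v ≤ 1 / 2 * (1 / 2) ^ h := by
  have hD1 : 1 ≤ D := by
    rw [hD]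
    exact Nat.one_le_two_pow
  have t1 := term1' (k' := k') (h := h) (a := 4 ^ ee (2 * k') y) (σ := σ) hk hh
    (Nat.one_le_pow _ _ (by norm_num)) (by rw [hσ, hC2])
  have hB : (0 : ℝ) < 16 * k' * (2 ^ y) ^ 2 * (2 ^ dx (2 * k') y) ^ 2 * ℓ := by
    have h1 : (0 : ℝ) < ℓ := by exact_mod_cast hℓ1
    have h2 : (0 : ℝ) < k' := by exact_mod_cast hk
    positivity
  have t2 := term2' (h := h) (A := (n : ℝ) / (16 * k' * (2 ^ y) ^ 2 *
      (2 ^ dx (2 * k') y) ^ 2 * ℓ)) (B := 16 * k' * (2 ^ y) ^ 2 * (2 ^ dx (2 * k') y) ^ 2 * ℓ)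
    (n := n) hh hB (by
      have h1 : 4 * h * (16 * k' * (2 ^ y) ^ 2 * (2 ^ dx (2 * k') y) ^ 2 * ℓ) ≤ n := by
        refine le_trans (le_of_eq ?_) hℓ
        rw [hC1, hE, hD, hd]
        ring
      exact_mod_cast h1) rfl
  have hlog : 1 ≤ Nat.log 2 n + 1 := by omega
  have hW1 : 1 ≤ W := by
    rw [hW]
    have : 0 < 4096 * D * ((C3 + 1) * ((2 * k' + 1) * C2 + 1)) := by positivity
    exact this
  have hhn : h ≤ n := by
    refine le_trans ?_ hWh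
    calc h = 1 * (h * 1) := by ring
      _ ≤ W * (h * (Nat.log 2 n + 1)) :=
        Nat.mul_le_mul hW1 (Nat.mul_le_mul_left _ hlog)
  have hrp : (r + 1) ^ ((2 * k' + 1) * σ) ≤
      2 ^ ((C3 + 1) * (Nat.log 2 n + 1) * ((2 * k' + 1) * σ)) := by
    rw [pow_mul 2]
    apply Nat.pow_le_pow_left
    have h1 : n < 2 ^ (Nat.log 2 n + 1) := Nat.lt_pow_succ_log_self (by norm_num) n
    have h2 : C3 ≤ 2 ^ C3 := (Nat.lt_two_pow_self).le
    calc r + 1 ≤ C3 * h := hr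
      _ ≤ 2 ^ C3 * 2 ^ (Nat.log 2 n + 1) := Nat.mul_le_mul h2 (hhn.trans h1.le)
      _ = 2 ^ (C3 + (Nat.log 2 n + 1)) := (pow_add _ _ _).symm
      _ ≤ 2 ^ ((C3 + 1) * (Nat.log 2 n + 1)) := by
        apply Nat.pow_le_pow_right (by norm_num)
        nlinarith
  have t3 := term3' (r := r) (v := v) (n := n) (Δ := 3 * Δ) (b := d + 12) (e := e)
    (I := (Idx n e).card) (a := (2 * k' + 1) * σ) (h := h) (γ := 1 / (W * h)) hI (by
      refine hv.trans (le_of_eq ?_)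
      congr 1
      ring) hrp (expo' hD1 hy hW hh hlog hWh hn hr hσ he hΔ hD)
  unfold exc2
  push_cast at t1 t2
  have h3 : (0 : ℝ) ≤ (1 / 2) ^ h := by positivity
  linarith

/-- The advantage. -/
theorem adv' {n D g s Δ : ℕ} {ex a b κ N q ε : ℝ} {h : ℕ} (hD1 : 1 ≤ D) (hg : 1 ≤ g)
    (hng : n ≤ 2 ^ g) (hs : s = 4 * D)
    (hgD : 4 * D ≤ g) (hgn : 4096 * D * g ≤ n) (hΔ : 512 * D * Δ ≤ n)
    (hex : ex ≤ 1 / 2 * (1 / 2) ^ h) (hex0 : 0 ≤ ex) (hb : 0 ≤ b)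
    (hκ : κ = 2 * ((s + 2 * (3 * Δ)) / (2 * g) : ℕ) + 2) (hN : N = 2 ^ g) (hq : q = 2 ^ (2 * g))
    (hε : ε = 2 ^ s / q ^ 2)
    (hmain : (1 - κ / N) * (1 - (1 + ε) * (N / q)) * a ≤ (1 + ε) * b + ex) :
    a ≤ (1 + (n : ℝ) / g * (1 / 2) ^ g) * b + (1 / 2) ^ h := by
  have hgr : (1 : ℝ) ≤ g := by exact_mod_cast hg
  have hDr : (1 : ℝ) ≤ D := by exact_mod_cast hD1
  obtain ⟨t, ht⟩ : ∃ t : ℝ, t = (1 / 2) ^ g := ⟨_, rfl⟩
  have ht0 : 0 < t := by rw [ht]; positivity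
  have ht1 : t ≤ 1 := by
    rw [ht]
    exact pow_le_one₀ (by norm_num) (by norm_num)
  have hinv : (2 : ℝ) ^ g = 1 / t := by
    rw [ht, one_div_pow, one_div_one_div]
  have hqt : q = 1 / t ^ 2 := by
    rw [hq, mul_comm 2 g, pow_mul, hinv, div_pow, one_pow]
  have e1 : N / q = t := by
    rw [hN, hqt, hinv]
    field_simp
  have hε0 : 0 ≤ ε := by
    rw [hε]
    positivity
  have e2 : ε ≤ t := by
    have h1 : (2 : ℝ) ^ s ≤ 1 / t := by
      rw [← hinv]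
      exact pow_le_pow_right₀ (by norm_num) (by omega)
    rw [hε, hqt]
    have h2 : ((1 / t ^ 2) ^ 2) = 1 / t ^ 4 := by
      field_simp
    rw [h2, div_le_iff₀ (by positivity), mul_one_div, le_div_iff₀ (by positivity)]
    have h3 : (2 : ℝ) ^ s * t ^ 4 ≤ 1 / t * t ^ 4 := mul_le_mul_of_nonneg_right h1 (by positivity)
    have h4 : 1 / t * t ^ 4 = t ^ 3 := by
      field_simp
    have h5 : t ^ 3 ≤ t := by
      have h6 : t ^ 2 ≤ 1 := pow_le_one₀ ht0.le ht1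
      calc t ^ 3 = t * t ^ 2 := by ring
        _ ≤ t * 1 := mul_le_mul_of_nonneg_left h6 ht0.le
        _ = t := mul_one t
    linarith
  have e3 : κ ≤ (4 * D + 6 * Δ) / g + 2 := by
    have h1 : (((s + 2 * (3 * Δ)) / (2 * g) : ℕ) : ℝ) ≤ (4 * D + 6 * Δ) / (2 * g) := by
      refine (Nat.cast_div_le (α := ℝ)).trans (le_of_eq ?_)
      rw [hs]
      push_cast
      ring
    have h2 : (4 * (D : ℝ) + 6 * Δ) / g = 2 * ((4 * D + 6 * Δ) / (2 * g)) := by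
      field_simp
    rw [hκ, h2]
    linarith
  have hκ0 : 0 ≤ κ := by
    rw [hκ]
    positivity
  -- the main numerical condition
  have e4 : 2 * κ + 6 ≤ n / g := by
    have h0 : 2 * κ + 6 ≤ 10 + (8 * (D : ℝ) + 12 * Δ) / g := by
      have : (8 * (D : ℝ) + 12 * Δ) / g = 2 * ((4 * D + 6 * Δ) / g) := by ring
      rw [this]
      linarith
    refine h0.trans ?_
    rw [← sub_nonneg]
    have h1 : (n : ℝ) / g - (10 + ((8 * (D : ℝ) + 12 * Δ) / g)) =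
        (n - (10 * g + (8 * D + 12 * Δ))) / g := by
      field_simp
    rw [h1]
    apply div_nonneg _ (by linarith)
    have h2 : ((4096 * D * g : ℕ) : ℝ) ≤ n := by exact_mod_cast hgn
    have h3 : ((512 * D * Δ : ℕ) : ℝ) ≤ n := by exact_mod_cast hΔ
    have h4 : ((4 * D : ℕ) : ℝ) ≤ g := by exact_mod_cast hgD
    push_cast at h2 h3 h4
    have h5 : (0 : ℝ) ≤ Δ := Nat.cast_nonneg _
    have h6 : (512 : ℝ) * Δ ≤ 512 * D * Δ := by nlinarith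
    have h7 : (4096 : ℝ) * g ≤ 4096 * D * g := by nlinarith
    linarith
  have e5 : (n : ℝ) / g * t ≤ 1 := by
    have h1 : (n : ℝ) ≤ 1 / t := by
      rw [← hinv]
      exact_mod_cast hng
    have h2 : (n : ℝ) * t ≤ 1 := by
      have := mul_le_mul_of_nonneg_right h1 ht0.le
      rwa [one_div_mul_cancel ht0.ne'] at this
    rw [div_mul_eq_mul_div, div_le_one (by linarith)]
    linarith
  obtain ⟨δ, hδ⟩ : ∃ δ : ℝ, δ = (n : ℝ) / g * t := ⟨_, rfl⟩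
  have e6 : (2 * κ + 6) * t ≤ δ := by
    rw [hδ]
    exact mul_le_mul_of_nonneg_right e4 ht0.le
  rw [e1] at hmain
  have hκN : κ / N = κ * t := by
    rw [hN, hinv]
    field_simp
  rw [hκN] at hmain
  rw [← ht, ← hδ]
  rw [← hδ] at e5
  have hRHS : 0 ≤ (1 + δ) * b + (1 / 2) ^ h := by
    have : 0 ≤ δ := by
      rw [hδ]
      positivity
    positivity
  rcases le_or_gt a 0 with ha | ha
  · linarith
  -- eta
  obtain ⟨η, hη⟩ : ∃ η : ℝ, η = κ * t + (1 + ε) * t := ⟨_, rfl⟩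
  have hη0 : 0 ≤ η := by
    rw [hη]
    positivity
  have hη1 : 2 * η + 2 * ε ≤ δ := by
    have h1 : ε * t ≤ 1 * t := mul_le_mul_of_nonneg_right (e2.trans ht1) ht0.le
    have h2 : (2 * κ + 6) * t = 2 * (κ * t) + 6 * t := by ring
    have h3 : η = κ * t + t + ε * t := by
      rw [hη]
      ring
    rw [h2] at e6
    linarith
  have g1 : (1 - η) * a ≤ (1 + ε) * b + ex := by
    refine le_trans (mul_le_mul_of_nonneg_right ?_ ha.le) hmain
    have h1 : (1 - κ * t) * (1 - (1 + ε) * t) = 1 - η + κ * t * ((1 + ε) * t) := by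
      rw [hη]
      ring
    rw [h1]
    have : 0 ≤ κ * t * ((1 + ε) * t) := by positivity
    linarith
  have hη2 : η ≤ 1 / 2 := by linarith
  have g2 : a ≤ (1 + 2 * η) * ((1 + ε) * b + ex) := by
    have h1 : a ≤ (1 + 2 * η) * ((1 - η) * a) := by
      have h2 : (1 + 2 * η) * ((1 - η) * a) = a + η * (1 - 2 * η) * a := by ring
      rw [h2]
      have : 0 ≤ η * (1 - 2 * η) * a :=
        mul_nonneg (mul_nonneg hη0 (by linarith)) ha.le
      linarith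
    exact h1.trans (mul_le_mul_of_nonneg_left g1 (by linarith))
  have g3 : (1 + 2 * η) * (1 + ε) ≤ 1 + δ := by
    have h1 : 2 * η * ε ≤ 1 * ε := mul_le_mul_of_nonneg_right (by linarith) hε0
    have h2 : (1 + 2 * η) * (1 + ε) = 1 + 2 * η + ε + 2 * η * ε := by ring
    rw [h2]
    linarith
  have g4 : (1 + 2 * η) * ex ≤ (1 / 2) ^ h := by
    have h1 : (1 + 2 * η) * ex ≤ 2 * ex := mul_le_mul_of_nonneg_right (by linarith) hex0
    linarith
  calc a ≤ (1 + 2 * η) * ((1 + ε) * b + ex) := g2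
    _ = (1 + 2 * η) * (1 + ε) * b + (1 + 2 * η) * ex := by ring
    _ ≤ (1 + δ) * b + (1 / 2) ^ h := add_le_add (mul_le_mul_of_nonneg_right g3 hb) g4

end Pool.Agent.L0h58.HM
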