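import Pool.Agent.L0h58.HN.Prog

/-!
# The multiplicative bound: statements
-/

set_option autoImplicit false

namespace Pool.Agent.L0h58.HM

open Finset Pool.Agent.L0h32.LT Pool.Agent.L0h58.HN

open Classical in
/-- If the last node of a randomized program with at most `L` nodes is in `U` with probability at most
`b` whenever `f x = true`, then it is in `U` with probability at most `(1 + δ) b + ε` for some `x` with
`f x = false`. -/
def Blind2 (n T : ℕ) (L δ ε : ℝ) (f : Inp n → Bool) : Prop :=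
  ∀ (Ω : Type) [Fintype Ω] (p : Ω → ℝ) (V : Ω → Type) [∀ ω, Finite (V ω)] (P : ∀ ω, BP n (V ω))
    (U : ∀ ω, Set (V ω)),
    (∀ ω, 0 ≤ p ω) → ∑ ω, p ω = 1 → (∀ ω, (Nat.card (V ω) : ℝ) ≤ L) → ∀ a b : ℝ, 0 ≤ b →
    (∀ x, f x = true → (∑ ω, if ((P ω).step x)^[T] (P ω).start ∈ U ω then p ω else 0) ≤ b) →
    (∀ x, f x = false → a ≤ ∑ ω, if ((P ω).step x)^[T] (P ω).start ∈ U ω then p ω else 0) →
      a ≤ (1 + δ) * b + ε

/-- **SELB2.** Selection preserves the bound (as `S_SELB`). -/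
def S_SELB2 : Prop :=
  ∀ (t n T : ℕ) (L δ ε : ℝ) (F : Fin t → Inp n → Bool) (k : Fin t), 0 < n →
    Blind2 n T L δ ε (F k) → Blind2 (t + n) T L δ ε (sel F)

/-- **GUE2.** Fewer guesses: take `U = {v | out v ≠ some true}`, `a = 1`, `b = 1 - (1 / 2) ^ g`. -/
def S_GUE2 : Prop :=
  ∀ (n T B g : ℕ) (L δ ε : ℝ) (f : Inp n → Bool), 0 ≤ δ → Blind2 n T L δ ε f →
    Guess n T B g f → (((g + 1) * B : ℕ) : ℝ) ≤ L → (1 / 2 : ℝ) ^ g ≤ δ + ε

/-- **GUE3.** The complement: take `U = {v | out v = some true}`, `a = (1 / 2) ^ g`, `b = 0`. -/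
def S_GUE3 : Prop :=
  ∀ (n T B g : ℕ) (L δ ε : ℝ) (f : Inp n → Bool), Blind2 n T L δ ε f →
    Guess n T B g (fun x => !f x) → (((g + 1) * B : ℕ) : ℝ) ≤ L → (1 / 2 : ℝ) ^ g ≤ ε

end Pool.Agent.L0h58.HM
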