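import Pool.Agent.L0h58.HN.All
import Pool.Agent.L0h58.HM.Blind

/-!
# One family of functions for all time bounds: the multiplicative bound
-/

set_option autoImplicit false

namespace Pool.Agent.L0h58.HM

open Finset Pool.Agent.L0h32.LT Pool.Agent.L0h32.LT2 Pool.Agent.L0h58.HN

theorem blind2_mono {n T : ℕ} {L L' δ δ' ε : ℝ} {f : Inp n → Bool} (hL : L' ≤ L) (hδ : δ ≤ δ')
    (h : Blind2 n T L δ ε f) : Blind2 n T L' δ' ε f := by
  intro Ω _ p V _ P U hp hp1 hcard a b hb h1 h0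
  refine (h Ω p V P U hp hp1 (fun ω => (hcard ω).trans hL) a b hb h1 h0).trans ?_
  have := mul_le_mul_of_nonneg_right hδ hb
  linarith

/-- **One family of functions for all time bounds.** -/
theorem all2 (hdet : S_DET2) (huni : S_UNI) (hnon : S_NON2) (hpar : S_PAR3) (hrnk : S_RNK)
    (hcnt : S_CNT) (hselb : S_SELB2) :
    ∃ f : (n g : ℕ) → Inp n → Bool,
      (∀ n g, 1 ≤ n → n ≤ 2 ^ g → NonP n g (2 ^ (14 * g)) (f n g)) ∧
      ∀ k : ℕ, ∃ W n₀ : ℕ, 1 ≤ W ∧ ∀ n ≥ n₀, ∀ g : ℕ, n ≤ 2 ^ g → W * g ≤ n →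
        ∀ T ≤ k * n, ∀ h : ℕ, 1 ≤ h → W * (h * (Nat.log 2 n + 1)) ≤ n →
          Blind2 n T (2 ^ ((n : ℝ) / (W * h))) ((n : ℝ) / g * (1 / 2) ^ g) ((1 / 2) ^ h)
            (f n g) := by
  classical
  choose W n₀ hW hbase using base2 hdet huni hnon hpar hrnk hcnt
  have key : ∀ N g : ℕ, ∃ f : Inp N → Bool,
      (1 ≤ N → N ≤ 2 ^ g → NonP N g (2 ^ (14 * g)) f) ∧
      ∀ k, k < N / 2 → n₀ k ≤ N - N / 2 → N - N / 2 ≤ 2 ^ g → W k * g ≤ N - N / 2 →
        ∀ T ≤ k * (N - N / 2), ∀ h : ℕ, 1 ≤ h →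
          W k * (h * (Nat.log 2 (N - N / 2) + 1)) ≤ N - N / 2 →
          Blind2 N T (2 ^ (((N - N / 2 : ℕ) : ℝ) / (W k * h)))
            (((N - N / 2 : ℕ) : ℝ) / g * (1 / 2) ^ g) ((1 / 2) ^ h) f := by
    intro N g
    obtain ⟨t, n, ht, hn, rfl⟩ : ∃ t n, t = N / 2 ∧ n = N - N / 2 ∧ N = t + n :=
      ⟨_, _, rfl, rfl, by omega⟩
    rw [← ht]
    have e : t + n - t = n := by omega
    rw [e]
    rcases Nat.eq_zero_or_pos n with h0 | h0
    · refine ⟨fun _ => false, fun h => ?_, fun k hk => ?_⟩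
      · omega
      · omega
    have hg : ∀ k : Fin t, ∃ F : Inp n → Bool, NonP n g (2 ^ (13 * g)) F ∧
        (n₀ k ≤ n → n ≤ 2 ^ g → W k * g ≤ n → ∀ T ≤ k * n, ∀ h : ℕ, 1 ≤ h →
          W k * (h * (Nat.log 2 n + 1)) ≤ n →
          Blind2 n T (2 ^ ((n : ℝ) / (W k * h))) ((n : ℝ) / g * (1 / 2) ^ g) ((1 / 2) ^ h)
            F) := by
      intro k
      by_cases h : n₀ k ≤ n ∧ n ≤ 2 ^ g ∧ W k * g ≤ n
      · obtain ⟨F, h1, h2⟩ := hbase k n h.1 g h.2.1 h.2.2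
        exact ⟨F, h1, fun _ _ _ => h2⟩
      · exact ⟨fun _ => false, nonP_false _ _ _ (Nat.one_le_pow _ _ (by norm_num)),
          fun h1 h2 h3 => absurd ⟨h1, h2, h3⟩ h⟩
    choose F hF1 hF2 using hg
    refine ⟨sel F, fun _ hN => ?_, fun k hk h1 h2 h3 T hT h hh hWh => ?_⟩
    · refine nonP_mono le_rfl ?_ (sel_nonP F hF1)
      rcases Nat.eq_zero_or_pos g with hg0 | hg0
      · have ht0 : t = 0 := by
          rw [hg0] at hN
          omega
        rw [hg0, ht0]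
        norm_num
      · have h1 : t * 2 ≤ 2 ^ g := by omega
        have h2 : 2 ^ g * 2 ≤ 2 ^ (14 * g) := by
          rw [← pow_succ]
          exact Nat.pow_le_pow_right (by norm_num) (by omega)
        have h3 : t * 2 ^ (13 * g) * 2 ≤ 2 ^ (14 * g) := by
          calc t * 2 ^ (13 * g) * 2 = t * 2 * 2 ^ (13 * g) := by ring
            _ ≤ 2 ^ g * 2 ^ (13 * g) := Nat.mul_le_mul_right _ h1
            _ = 2 ^ (14 * g) := by
              rw [← pow_add]
              congr 1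
              ring
        omega
    · exact hselb t n T _ _ _ F ⟨k, hk⟩ h0 (hF2 ⟨k, hk⟩ h1 h2 h3 T hT h hh hWh)
  choose f hf1 hf2 using key
  refine ⟨f, hf1, fun k => ⟨2 * W (2 * k), 2 * n₀ (2 * k) + 8 * k + 2,
    by have := hW (2 * k); omega, fun N hN g hNg hWg T hT h hh hWh => ?_⟩⟩
  have hWpos := hW (2 * k)
  have h1 : W (2 * k) * g ≤ N - N / 2 := by
    have : 2 * W (2 * k) * g = 2 * (W (2 * k) * g) := by ring
    omega
  have h2 : W (2 * k) * (h * (Nat.log 2 (N - N / 2) + 1)) ≤ N - N / 2 := by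
    have h6 : W (2 * k) * (h * (Nat.log 2 (N - N / 2) + 1)) ≤
        W (2 * k) * (h * (Nat.log 2 N + 1)) :=
      Nat.mul_le_mul_left _ (Nat.mul_le_mul_left _
        (Nat.succ_le_succ (Nat.log_mono_right (Nat.sub_le _ _))))
    have : 2 * W (2 * k) * (h * (Nat.log 2 N + 1)) =
      2 * (W (2 * k) * (h * (Nat.log 2 N + 1))) := by ring
    omega
  have h3 : T ≤ 2 * k * (N - N / 2) := by
    have h4 : N ≤ 2 * (N - N / 2) := by omega
    calc T ≤ k * N := hT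
      _ ≤ k * (2 * (N - N / 2)) := Nat.mul_le_mul_left _ h4
      _ = 2 * k * (N - N / 2) := by ring
  have h5 := hf2 N g (2 * k) (by omega) (by omega) (by omega) h1 T h3 h hh h2
  have hNr : (N : ℝ) ≤ 2 * ((N - N / 2 : ℕ) : ℝ) := by
    have : N ≤ 2 * (N - N / 2) := by omega
    exact_mod_cast this
  have hNr' : ((N - N / 2 : ℕ) : ℝ) ≤ N := by
    have : N - N / 2 ≤ N := Nat.sub_le _ _
    exact_mod_cast this
  have hWr : (0 : ℝ) < W (2 * k) := by exact_mod_cast hWpos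
  have hhr : (0 : ℝ) < h := by exact_mod_cast hh
  refine blind2_mono ?_ ?_ h5
  · apply Real.rpow_le_rpow_of_exponent_le (by norm_num)
    push_cast
    rw [div_le_div_iff₀ (by positivity) (by positivity)]
    have h6 : (0 : ℝ) ≤ W (2 * k) * h := by positivity
    calc (N : ℝ) * (W (2 * k) * h) ≤ 2 * ((N - N / 2 : ℕ) : ℝ) * (W (2 * k) * h) :=
          mul_le_mul_of_nonneg_right hNr h6
      _ = ((N - N / 2 : ℕ) : ℝ) * (2 * W (2 * k) * h) := by ring
  · exact mul_le_mul_of_nonneg_right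
      (div_le_div_of_nonneg_right hNr' (Nat.cast_nonneg g)) (by positivity)

end Pool.Agent.L0h58.HM
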