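import Pool.Agent.L0h58.HM.Num3

/-!
# Randomized programs are blind, with explicit dependence on the time
-/

set_option autoImplicit false

namespace Pool.Agent.L0h58.HM

open Finset Pool.Agent.L0h32.LT Pool.Agent.L0h32.LT2 Pool.Agent.L0h58.HN

theorem blind3 (hdet : S_DET2) {k k' y n g ρ N K s Δ m e h d D E C1 C2 C3 W : ℕ} {F : Type}
    [Field F] [Fintype F] [Algebra (ZMod 2) F] (hk' : k' = k + 2)
    (hd : d = dx (2 * k') y) (hD : D = 2 ^ d) (hE : E = 2 ^ y) (hy : 2 ^ 17 * (d + 15) ≤ E)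
    (hC1 : C1 = 64 * k' * E ^ 2 * D ^ 2) (hC2 : C2 = 2 * 4 ^ ee (2 * k') y * (4 + 2 * k'))
    (hC3 : C3 = 2 * C1 * (k + 1) + 2)
    (hW : W = 4096 * D * ((C3 + 1) * ((2 * k' + 1) * C2 + 1)))
    (hn0 : 0 < n) (hn : 8192 * D ≤ n) (hng : n ≤ 2 ^ g) (hg1 : 1 ≤ g) (hsg : s ≤ g) (hgn : 4096 * D * g ≤ n)
    (hρ : ρ = 2 * g) (hN : N = 2 ^ g) (hN4 : 4 ≤ N) (hs : s ≤ 4 * D)
    (hm1 : 2 * D * m ≤ n) (hΔ1 : 512 * D * Δ ≤ n) (hΔ2 : n < 512 * D * (Δ + 1))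
    (he1 : 16 * n < E * D * (e + 1)) (he2 : E * D * e ≤ 16 * n)
    (hF2 : Fintype.card F = 2 ^ ρ) (e' : (Fin ρ → ZMod 2) ≃ₗ[ZMod 2] F)
    (M : Fin n → (Fin K × Fin 6 × Fin ρ → ZMod 2))
    (hM : ∀ A : Finset (Fin n), m ≤ A.card →
      K * (6 * ρ) ≤ Module.finrank (ZMod 2) (Submodule.span (ZMod 2) (M '' A)) + s)
    (τ : Fin N → F) (hτ : Function.Injective τ)
    (hbud : s + 2 * (3 * Δ) + 2 * ρ ≤ ρ * K) (h2N : 2 * N ≤ 2 ^ (3 * Δ))
    (f : Inp n → Bool) (hf : ∀ x, f x = true ↔ ∃ t, qf (ev τ (blk M e' x) t) = 0)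
    (hone : ∀ f' : Finset (Inp n), (∀ x, x ∈ f' ↔ f x = true) →
      Fintype.card F ^ 3 * f'.card ≤ N * 2 ^ n * (Fintype.card F ^ 2 + 2 ^ s))
    (hI : (Idx n e).card * 2 ^ ((d + 12) * n) ≤ 2 ^ ((d + 12) * e) * (2 ^ (d + 12) + 2) ^ n)
    {T : ℕ} (hT : T ≤ k * n) (hh : 1 ≤ h) (hWh : W * (h * (Nat.log 2 n + 1)) ≤ n) :
    Blind2 n T (2 ^ ((n : ℝ) / (W * h))) ((n : ℝ) / g * (1 / 2) ^ g) ((1 / 2) ^ h) f := by
  classical
  intro Ω _ p V _ P U hp hp1 hcard a b hb ho hz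
  have hD1 : 1 ≤ D := by
    rw [hD]
    exact Nat.one_le_two_pow
  have hC11 : 1 ≤ C1 := by
    rw [hC1, hk', hE]
    have : 0 < 64 * (k + 2) * (2 ^ y) ^ 2 * D ^ 2 := by positivity
    exact this
  have hC31 : 1 ≤ C3 := by
    rw [hC3]
    exact Nat.succ_le_succ (Nat.zero_le _)
  have hC1W : C1 ≤ W := by
    have h1 : C1 ≤ C3 := by
      rw [hC3]
      calc C1 = C1 * 1 := (mul_one _).symm
        _ ≤ C1 * (2 * (k + 1)) := Nat.mul_le_mul_left _ (by omega)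
        _ = 2 * C1 * (k + 1) := by ring
        _ ≤ _ := Nat.le_add_right _ _
    rw [hW]
    calc C1 = 1 * (C1 * 1) := by ring
      _ ≤ 4096 * D * ((C3 + 1) * ((2 * k' + 1) * C2 + 1)) :=
        Nat.mul_le_mul (by omega) (Nat.mul_le_mul (by omega) (by omega))
  have hC1h : C1 * h ≤ n := by
    refine le_trans ?_ hWh
    exact Nat.mul_le_mul hC1W (Nat.le_mul_of_pos_right _ (by omega))
  obtain ⟨ℓ, r, hℓ1, hℓ2, hr1, hr2, hr3⟩ := segments' hk' hC11 hC3 hh hC1h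
  obtain ⟨σ, hσ⟩ : ∃ σ, σ = C2 * h := ⟨_, rfl⟩
  have hσ1 : 1 ≤ σ := by
    rw [hσ, hC2]
    have : 0 < 2 * 4 ^ ee (2 * k') y * (4 + 2 * k') * h := by positivity
    exact this
  have hTr : T ≤ r * ℓ := by
    refine (hT.trans ?_).trans hr1
    exact Nat.mul_le_mul_right _ (by omega)
  have hTn : T + n ≤ r * ℓ := by
    refine le_trans ?_ hr1
    rw [Nat.succ_mul]
    omega
  have hNN : N ^ 2 = Fintype.card F := by rw [hF2, hN, hρ, ← pow_mul, mul_comm]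
  obtain ⟨κ, hκ⟩ : ∃ κ : ℝ, κ = 2 * ((s + 2 * (3 * Δ)) / ρ : ℕ) + 2 := ⟨_, rfl⟩
  have hI2 : ((Fintype.card (Inp n) : ℕ) : ℝ) = 2 ^ n := by
    rw [Fintype.card_fun, Fintype.card_bool, Fintype.card_fin]
    push_cast
    rfl
  have hNr : (0 : ℝ) < N := by
    have : 0 < N := by omega
    exact_mod_cast this
  have hqr : (0 : ℝ) < Fintype.card F := by
    rw [← hNN]
    push_cast
    positivity
  have hexh : (0 : ℝ) ≤ 1 / 2 * (1 / 2) ^ h := by positivity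
  have key : ∀ ω, ∀ A B : Finset (Inp n),
      (∀ x, x ∈ A ↔ ((P ω).step x)^[T] (P ω).start ∈ U ω) →
      (∀ x, x ∈ B ↔ ((P ω).step x)^[T] (P ω).start ∈ U ω ∧ f x = true) → (N : ℝ) * A.card ≤
      (Fintype.card F : ℝ) * B.card + κ * A.card +
        N * (1 / 2 * (1 / 2) ^ h * Fintype.card (Inp n)) := by
    intro ω A B hA hB
    have h1 := hdet k' y n r ℓ σ K N ρ s Δ m e F e' M τ hτ hN4 hNN.le hF2 hbud h2N (by omega) hn0
      hσ1 hℓ1 hr2 (by rw [← hd, ← hD]; exact hm1) (by rw [← hd, ← hD, ← hE]; exact he1) hM (V ω)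
      (pad hn0 (P ω).var (P ω).next (P ω).out T) (P ω).start
      (fun β x i => cov_pad hn0 (P ω).var (P ω).next (P ω).out T hℓ1 hTn β x i) (U ω)
    have h2 : ∀ x, (bd (pad hn0 (P ω).var (P ω).next (P ω).out T) ℓ (P ω).start x r ∈ U ω) ↔
        ((P ω).step x)^[T] (P ω).start ∈ U ω := by
      intro x
      rw [bd_pad hn0 (P ω) hTr x]
    have h3 : (univ.filter fun x : Inp n => bd (pad hn0 (P ω).var (P ω).next (P ω).out T) ℓ
        (P ω).start x r ∈ U ω) = A := by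
      ext x
      rw [mem_filter, hA, h2]
      exact ⟨fun h => h.2, fun h => ⟨mem_univ _, h⟩⟩
    have h4 : (univ.filter fun x : Inp n => bd (pad hn0 (P ω).var (P ω).next (P ω).out T) ℓ
        (P ω).start x r ∈ U ω ∧ ∃ t, qf (ev τ (blk M e' x) t) = 0) = B := by
      ext x
      rw [mem_filter, hB, h2, hf]
      exact ⟨fun h => h.2, fun h => ⟨mem_univ _, h⟩⟩
    rw [h3, h4] at h1
    refine h1.trans ?_
    have h5 := exc_le' (v := Nat.card (V ω)) (e := e) (r := r) (ℓ := ℓ) (by omega) hh hd hD hE hy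
      hC1 hC2 hW hℓ1 hℓ2 hr3 hσ hWh hn he2 hΔ2 hI (hcard ω)
    rw [hκ, hI2]
    have h6 : exc2 k' y n r ℓ σ e (3 * Δ) (Nat.card (V ω)) * 2 ^ n ≤
        1 / 2 * (1 / 2) ^ h * 2 ^ n :=
      mul_le_mul_of_nonneg_right h5 (by positivity)
    have h7 := mul_le_mul_of_nonneg_left h6 hNr.le
    linarith
  have hε : ∀ A : Finset (Inp n), (∀ x, x ∈ A ↔ f x = true) → (Fintype.card F : ℝ) * A.card ≤
      N * (1 + 2 ^ s / (Fintype.card F : ℝ) ^ 2) * Fintype.card (Inp n) := by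
    intro A hA
    have h1 := hone A hA
    have h2 : (Fintype.card F : ℝ) ^ 3 * A.card ≤
        N * 2 ^ n * ((Fintype.card F : ℝ) ^ 2 + 2 ^ s) := by exact_mod_cast h1
    rw [hI2]
    generalize (A.card : ℝ) = c at h2 ⊢
    generalize (Fintype.card F : ℝ) = q at h2 hqr ⊢
    have h3 : (1 + 2 ^ s / q ^ 2) = (q ^ 2 + 2 ^ s) / q ^ 2 := by
      field_simp
    rw [h3, mul_div_assoc', div_mul_eq_mul_div, le_div_iff₀ (by positivity)]
    calc q * c * q ^ 2 = q ^ 3 * c := by ring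
      _ ≤ _ := h2
      _ = _ := by ring
  obtain ⟨ε, hεε⟩ : ∃ ε : ℝ, ε = 2 ^ s / (Fintype.card F : ℝ) ^ 2 := ⟨_, rfl⟩
  have hNN' : (N : ℝ) = 2 ^ g := by
    rw [hN]
    push_cast
    rfl
  have hq' : (Fintype.card F : ℝ) = 2 ^ (2 * g) := by
    rw [hF2, hρ]
    push_cast
    rfl
  have hκ' : κ = 2 * ((s + 2 * (3 * Δ)) / (2 * g) : ℕ) + 2 := by
    rw [hκ, hρ]
  obtain ⟨hs1, hs2⟩ := side3 (ε := ε) hD1 hg1 hng hs hsg hgn hΔ1 hκ' hNN' hq' hεε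
  rw [← hεε] at hε
  have hε0 : 0 ≤ ε := by
    rw [hεε]
    positivity
  have hκ0 : 0 ≤ κ := by
    rw [hκ]
    positivity
  have hav := avg2 p (fun ω x => ((P ω).step x)^[T] (P ω).start ∈ U ω) (fun x => f x = true) N
    (Fintype.card F) κ (1 / 2 * (1 / 2) ^ h) ε a b hp hp1 hNr hqr hκ0 hs1 hs2 hexh hε0
    Fintype.card_pos hb key hε ho (fun x hx => hz x (by simpa using hx))
  exact adv3 (n := n) (D := D) (g := g) (s := s) (Δ := Δ) (ex := 1 / 2 * (1 / 2) ^ h) (h := h) hD1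
    hg1 hng hs hsg hgn hΔ1 le_rfl hexh hb hκ' hNN' hq' hεε hav

/-- **Assembly for one time bound.** -/
theorem base3 (hdet : S_DET2) (huni : S_UNI) (hnon : S_NON2) (hcnt : S_CNT) (k : ℕ) :
    ∃ W : ℕ, 1 ≤ W ∧ W ≤ 2 ^ (65536 * (k + 2) ^ 3) ∧
      ∀ n g : ℕ, 1 ≤ g → n ≤ 2 ^ g → W * g ≤ n →
      ∃ f : Inp n → Bool, NonP n g (2 ^ (13 * g)) f ∧
        ∀ T ≤ k * n, ∀ h : ℕ, 1 ≤ h → W * (h * (Nat.log 2 n + 1)) ≤ n →
          Blind2 n T (2 ^ ((n : ℝ) / (W * h))) ((n : ℝ) / g * (1 / 2) ^ g) ((1 / 2) ^ h) f := by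
  classical
  obtain ⟨k', hk'⟩ : ∃ k', k' = k + 2 := ⟨_, rfl⟩
  obtain ⟨y, hy, hd2⟩ := par4 (J := 2 * k') (by omega)
  obtain ⟨d, hd⟩ : ∃ d, d = dx (2 * k') y := ⟨_, rfl⟩
  rw [← hd] at hy hd2
  obtain ⟨D, hD⟩ : ∃ D, D = 2 ^ d := ⟨_, rfl⟩
  obtain ⟨E, hE⟩ : ∃ E, E = 2 ^ y := ⟨_, rfl⟩
  rw [← hE] at hy
  have hD1 : 1 ≤ D := by
    rw [hD]
    exact Nat.one_le_two_pow
  have hE1 : 1 ≤ E := by
    rw [hE]
    exact Nat.one_le_two_pow
  obtain ⟨C1, hC1⟩ : ∃ C1, C1 = 64 * k' * E ^ 2 * D ^ 2 := ⟨_, rfl⟩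
  obtain ⟨C2, hC2⟩ : ∃ C2, C2 = 2 * 4 ^ ee (2 * k') y * (4 + 2 * k') := ⟨_, rfl⟩
  obtain ⟨C3, hC3⟩ : ∃ C3, C3 = 2 * C1 * (k + 1) + 2 := ⟨_, rfl⟩
  obtain ⟨W, hW⟩ : ∃ W, W = 4096 * D * ((C3 + 1) * ((2 * k' + 1) * C2 + 1)) := ⟨_, rfl⟩
  have hC31 : 0 < C3 := by
    rw [hC3]
    exact Nat.succ_pos _
  have hW1 : 1 ≤ W := by
    rw [hW]
    have : 0 < 4096 * D * ((C3 + 1) * ((2 * k' + 1) * C2 + 1)) := by positivity
    exact this
  have hWD : 4096 * D ≤ W := by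
    rw [hW]
    exact Nat.le_mul_of_pos_right _ (by positivity)
  obtain ⟨hW2, hd3, hWDD, hWD8, hWs⟩ := size_W hk' hd hd2 hD hE hC1 hC2 hC3 hW
  refine ⟨W, hW1, hW2, fun n g hg1 hng hWg => ?_⟩
  clear hW2
  have hWn : W ≤ n := le_trans (Nat.le_mul_of_pos_right _ hg1) hWg
  have hnB : 8192 * D ≤ n := hWD8.trans hWn
  have hnD : 768 * D * D ≤ n := hWDD.trans hWn
  have hn0 : 0 < n := by omega
  obtain ⟨s, hs0⟩ : ∃ s, s = 2 * d + 7 := ⟨_, rfl⟩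
  have hsg : s ≤ g := by
    have h1 : 2 ^ s ≤ 2 ^ g := by
      rw [hs0]
      exact hWs.trans (hWn.trans hng)
    exact (Nat.pow_le_pow_iff_right (by norm_num)).1 h1
  have hs : s ≤ 4 * D := by
    have h1 : d + 1 ≤ 2 ^ d := Nat.lt_two_pow_self
    rw [hD]
    omega
  have hg4 : 4 ≤ g := by omega
  have hgn : 4096 * D * g ≤ n := (Nat.mul_le_mul_right _ hWD).trans hWg
  -- the parameters
  obtain ⟨ρ, hρ⟩ : ∃ ρ, ρ = 2 * g := ⟨_, rfl⟩
  obtain ⟨N, hN⟩ : ∃ N, N = 2 ^ g := ⟨_, rfl⟩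
  have hN4 : 4 ≤ N := by
    rw [hN]
    calc 4 = 2 ^ 2 := by norm_num
      _ ≤ 2 ^ g := Nat.pow_le_pow_right (by norm_num) (by omega)
  obtain ⟨K, hK⟩ : ∃ K, K = n / (48 * D * ρ) := ⟨_, rfl⟩
  have hρ1 : 0 < ρ := by omega
  have hposK : 0 < 48 * D * ρ := by positivity
  have hK1 : 48 * D * (ρ * K) ≤ n := by
    have : 48 * D * ρ * K ≤ n := by
      rw [hK]
      exact Nat.mul_div_le _ _
    rw [← mul_assoc]
    exact this
  have hK2 : n < 48 * D * (ρ * K + ρ) := by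
    have h1 : n < 48 * D * ρ * (K + 1) := by
      rw [hK]
      exact Nat.lt_mul_div_succ _ hposK
    refine h1.trans_le (le_of_eq ?_)
    ring
  obtain ⟨m, hm⟩ : ∃ m, m = n / (2 * D) := ⟨_, rfl⟩
  have hm1 : 2 * D * m ≤ n := by
    rw [hm]
    exact Nat.mul_div_le _ _
  have hm2 : n < 2 * D * (m + 1) := by
    rw [hm]
    exact Nat.lt_mul_div_succ _ (by omega)
  obtain ⟨Δ, hΔ⟩ : ∃ Δ, Δ = n / (512 * D) := ⟨_, rfl⟩
  have hΔ1 : 512 * D * Δ ≤ n := by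
    rw [hΔ]
    exact Nat.mul_div_le _ _
  have hΔ2 : n < 512 * D * (Δ + 1) := by
    rw [hΔ]
    exact Nat.lt_mul_div_succ _ (by omega)
  obtain ⟨e, he⟩ : ∃ e, e = 16 * n / (E * D) := ⟨_, rfl⟩
  have hED : 0 < E * D := by positivity
  have he1 : 16 * n < E * D * (e + 1) := by
    rw [he]
    exact Nat.lt_mul_div_succ _ hED
  have he2 : E * D * e ≤ 16 * n := by
    rw [he]
    exact Nat.mul_div_le _ _
  -- the budget
  have hgD2 : 4096 * (D * g) ≤ n := by rw [← mul_assoc]; exact hgn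
  have hbud : s + 2 * (3 * Δ) + 2 * ρ ≤ ρ * K := by
    have e0 : 48 * D * (ρ * K + ρ) = 48 * (D * (ρ * K)) + 48 * (D * ρ) := by ring
    have e1 : D * ρ = 2 * (D * g) := by rw [hρ]; ring
    have e2 : 512 * D * Δ = 512 * (D * Δ) := by ring
    have e3 : 768 * D * D = 768 * (D * D) := by ring
    have h1 : D * (s + 2 * (3 * Δ) + 2 * ρ) ≤ D * (ρ * K) := by
      have h2 : D * (s + 2 * (3 * Δ) + 2 * ρ) ≤ 4 * (D * D) + 6 * (D * Δ) + 2 * (D * ρ) := by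
        calc D * (s + 2 * (3 * Δ) + 2 * ρ) = D * s + 6 * (D * Δ) + 2 * (D * ρ) := by ring
          _ ≤ D * (4 * D) + 6 * (D * Δ) + 2 * (D * ρ) :=
            Nat.add_le_add_right (Nat.add_le_add_right (Nat.mul_le_mul_left _ hs) _) _
          _ = _ := by ring
      refine h2.trans ?_
      rw [e0, e1] at hK2
      rw [e1]
      rw [e2] at hΔ1
      rw [e3] at hnD
      clear hng hWg he1 he2 hWD hy hd2 hWs hs0
      omega
    exact Nat.le_of_mul_le_mul_left h1 (by omega)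
  have hK0 : 1 ≤ K := by
    by_contra hcon
    have : K = 0 := by omega
    rw [this, mul_zero] at hbud
    omega
  have h2N : 2 * N ≤ 2 ^ (3 * Δ) := by
    rw [hN, ← pow_succ']
    apply Nat.pow_le_pow_right (by norm_num)
    have h1 : 512 * D * (g + 1) < 512 * D * (Δ + 1) := by
      refine lt_of_le_of_lt ?_ hΔ2
      have e1 : 512 * D * (g + 1) = 512 * (D * g) + 512 * D := by ring
      have e2 : D * 1 ≤ D * g := Nat.mul_le_mul_left _ (by omega)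
      omega
    have h2 := Nat.lt_of_mul_lt_mul_left h1
    omega
  -- the field
  have hρ0 : ρ ≠ 0 := by omega
  have hcF : Nat.card (GaloisField 2 ρ) = 2 ^ ρ := GaloisField.card 2 ρ hρ0
  have hfin : Finite (GaloisField 2 ρ) := by
    apply Nat.finite_of_card_ne_zero
    rw [hcF]
    positivity
  have : Fintype (GaloisField 2 ρ) := Fintype.ofFinite _
  have hF2 : Fintype.card (GaloisField 2 ρ) = 2 ^ ρ := by
    rw [← Nat.card_eq_fintype_card]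
    exact hcF
  obtain ⟨e'⟩ : Nonempty ((Fin ρ → ZMod 2) ≃ₗ[ZMod 2] GaloisField 2 ρ) :=
    ⟨(Module.finBasisOfFinrankEq (ZMod 2) (GaloisField 2 ρ)
      (GaloisField.finrank 2 hρ0)).equivFun.symm⟩
  obtain ⟨τ⟩ : Nonempty (Fin N ↪ GaloisField 2 ρ) := by
    rw [Function.Embedding.nonempty_iff_card_le, Fintype.card_fin, hF2, hN, hρ]
    exact Nat.pow_le_pow_right (by norm_num) (by omega)
  -- the matrix
  have hι : Fintype.card (Fin K × Fin 6 × Fin ρ) = K * (6 * ρ) := by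
    rw [Fintype.card_prod, Fintype.card_prod, Fintype.card_fin, Fintype.card_fin, Fintype.card_fin]
  obtain ⟨M, hM⟩ := rnk2 n m s (Fin K × Fin 6 × Fin ρ) (by
    rw [hι, hs0]
    rw [hD] at hm2
    apply rnk_cond hm2
    · have h1 : 48 * D * (ρ * K) < 2 * D * (m + 1) := by
        rw [← hD] at hm2
        exact lt_of_le_of_lt hK1 hm2
      have h2 : 2 * D * (24 * (ρ * K)) < 2 * D * (m + 1) := by
        refine lt_of_eq_of_lt ?_ h1
        ring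
      have h3 := Nat.lt_of_mul_lt_mul_left h2
      have h4 : 4 * (K * (6 * ρ)) = 24 * (ρ * K) := by ring
      omega
    · have h1 : 2 * D * 1 < 2 * D * (m + 1) := by
        rw [← hD] at hm2
        omega
      have h2 := Nat.lt_of_mul_lt_mul_left h1
      omega)
  rw [hι] at hM
  obtain ⟨A, B, hAB, hABu, hA, hB⟩ := half_sets (n := n) (m := m) (by
    have : 2 * 1 * m ≤ 2 * D * m := Nat.mul_le_mul_right _ (Nat.mul_le_mul_left _ hD1)
    omega)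
  have hone := huni n K N ρ s (GaloisField 2 ρ) e' M τ τ.injective hF2 hK0 A B hAB hABu (hM A hA)
    (hM B hB)
  obtain ⟨f, hf⟩ : ∃ f : Inp n → Bool, ∀ x, f x = true ↔ ∃ t, qf (ev τ (blk M e' x) t) = 0 :=
    ⟨fun x => decide (∃ t, qf (ev τ (blk M e' x) t) = 0), fun x => decide_eq_true_iff⟩
  refine ⟨f, ?_, ?_⟩
  · -- the one-pass program
    obtain ⟨V, hV, start, next, acc, h2, h3⟩ := hnon n K N g ρ (GaloisField 2 ρ) e' M τ hN hF2
    refine ⟨V, hV, start, next, acc, h2.trans (le_of_eq ?_), fun x => ?_⟩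
    · congr 1
      rw [hρ]
      ring
    · rw [hf]
      exact h3 x
  · intro T hT h hh hWh
    refine blind3 hdet hk' hd hD hE hy hC1 hC2 hC3 hW hn0 hnB hng hg1 hsg hgn hρ hN hN4 hs hm1 hΔ1 hΔ2 he1
      he2 hF2 e' M hM τ τ.injective hbud h2N f hf (fun f' hf' => ?_) ?_ hT hh hWh
    · have h1 : f' = univ.filter fun x : Inp n => ∃ t, qf (ev τ (blk M e' x) t) = 0 := by
        ext x
        rw [hf', hf]
        simp
      rw [h1]
      exact hone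
    · have h1 := hcnt n e (d + 12)
      unfold Idx
      refine le_trans (le_of_eq ?_) h1
      congr 2

end Pool.Agent.L0h58.HM
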