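import Pool.Agent.L0h58.HM.Stm
import Pool.Agent.L0h13.HN.Gue

/-!
# Guesses are coins: the multiplicative bound
-/

set_option autoImplicit false

namespace Pool.Agent.L0h58.HM

open Finset Pool.Agent.L0h32.LT Pool.Agent.L0h58.HN Pool.Agent.L0h13.HN

theorem sum_half (g : ℕ) : ∑ _ω : Fin g → Bool, (1 / 2 : ℝ) ^ g = 1 := by
  rw [Finset.sum_const, Finset.card_univ, Fintype.card_fun, Fintype.card_bool, Fintype.card_fin,
    nsmul_eq_mul]
  push_cast
  rw [← mul_pow]
  norm_num

/-- Accepted inputs are accepted by the program with some list of guesses. -/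
theorem acc_det {n g : ℕ} {V : Type} (P : NBP n V) (T : ℕ) (x : Inp n) (h : P.Accepts T g x) :
    ∃ w : Fin g → Bool, (det P w).out (((det P w).step x)^[T] (det P w).start) = some true := by
  classical
  obtain ⟨γ, h1, h2⟩ := h
  have hc : Nat.count (gen P x γ) T ≤ g := by
    rw [Nat.count_eq_card_filter_range]
    refine le_trans (le_of_eq ?_) h2
    congr 1
    ext k
    rw [mem_filter, mem_filter]
    rfl
  refine ⟨fun i : Fin g => γ (Nat.nth (gen P x γ) i), ?_⟩
  rw [to_det P x γ T hc]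
  exact h1

/-- Conversely. -/
theorem det_acc {n g : ℕ} {V : Type} (P : NBP n V) (T : ℕ) (x : Inp n) (w : Fin g → Bool)
    (hacc : (det P w).out (((det P w).step x)^[T] (det P w).start) = some true) :
    P.Accepts T g x := by
  classical
  have h1 := from_det P w x T hacc T le_rfl
  refine ⟨gu P w x, ?_, ?_⟩
  · rw [h1.1]
    exact hacc
  · have h3 := h1.2
    rw [Nat.count_eq_card_filter_range] at h3
    have h4 : ((((det P w).step x)^[T] (det P w).start).2 : ℕ) ≤ g := by
      have := (((det P w).step x)^[T] (det P w).start).2.isLt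
      omega
    rw [← h3] at h4
    refine le_trans (le_of_eq ?_) h4
    congr 1
    ext k
    rw [mem_filter, mem_filter]
    rfl

theorem card_det {B g : ℕ} {V : Type} [Finite V] {L : ℝ} (hcard : Nat.card V ≤ B)
    (hL : (((g + 1) * B : ℕ) : ℝ) ≤ L) : (Nat.card (V × Fin (g + 1)) : ℝ) ≤ L := by
  refine le_trans ?_ hL
  rw [Nat.card_prod, Nat.card_fin]
  exact_mod_cast (by nlinarith [hcard] : Nat.card V * (g + 1) ≤ (g + 1) * B)

theorem t_GUE2 : S_GUE2 := by
  classical
  rintro n T B g L δ ε f hδ hB ⟨V, hV, P, hcard, hP⟩ hL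
  obtain ⟨U, hU⟩ : ∃ U : (Fin g → Bool) → Set (V × Fin (g + 1)),
      ∀ w v, v ∈ U w ↔ (det P w).out v ≠ some true := ⟨fun w => {v | (det P w).out v ≠ some true},
        fun w v => Iff.rfl⟩
  have hp0 : (0 : ℝ) ≤ (1 / 2) ^ g := by positivity
  have hp1 : (1 / 2 : ℝ) ^ g ≤ 1 := pow_le_one₀ (by norm_num) (by norm_num)
  have hfin : ∀ w : Fin g → Bool, Finite (V × Fin (g + 1)) := fun _ => inferInstance
  have h := hB (Fin g → Bool) (fun _ => (1 / 2 : ℝ) ^ g) (fun _ => V × Fin (g + 1))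
    (fun w => det P w) U (fun _ => hp0) (sum_half g) (fun w => card_det hcard hL)
    1 (1 - (1 / 2 : ℝ) ^ g) (by linarith) ?_ ?_
  · have h1 := mul_nonneg hδ hp0
    have h2 : (1 + δ) * (1 - (1 / 2) ^ g) = 1 + δ - (1 / 2) ^ g - δ * (1 / 2) ^ g := by ring
    rw [h2] at h
    linarith
  · intro x hx
    obtain ⟨w, hw⟩ := acc_det P T x ((hP x).1 hx)
    have h1 : ∑ ω : Fin g → Bool, (1 / 2 : ℝ) ^ g = 1 := sum_half g
    have h2 : (∑ ω : Fin g → Bool, if ((det P ω).step x)^[T] (det P ω).start ∈ U ω then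
        (1 / 2 : ℝ) ^ g else 0) + (1 / 2 : ℝ) ^ g ≤ ∑ ω : Fin g → Bool, (1 / 2 : ℝ) ^ g := by
      have h3 : (∑ ω : Fin g → Bool, if ω = w then (1 / 2 : ℝ) ^ g else 0) = (1 / 2 : ℝ) ^ g := by
        rw [Finset.sum_ite_eq' univ w, if_pos (mem_univ _)]
      nth_rewrite 2 [← h3]
      rw [← Finset.sum_add_distrib]
      refine Finset.sum_le_sum fun ω _ => ?_
      by_cases hω : ω = w
      · rw [if_neg, if_pos hω]
        · simp
        · rw [hU, hω]
          exact fun h => h hw
      · rw [if_neg hω, add_zero]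
        split_ifs
        · exact le_rfl
        · exact hp0
    linarith
  · intro x hx
    have h1 : ∑ ω : Fin g → Bool, (1 / 2 : ℝ) ^ g = 1 := sum_half g
    refine le_trans h1.ge (le_of_eq ?_)
    refine Finset.sum_congr rfl fun ω _ => ?_
    rw [if_pos]
    rw [hU]
    intro hacc
    have h2 := (hP x).2 (det_acc P T x ω hacc)
    rw [h2] at hx
    cases hx

theorem t_GUE3 : S_GUE3 := by
  classical
  rintro n T B g L δ ε f hB ⟨V, hV, P, hcard, hP⟩ hL
  obtain ⟨U, hU⟩ : ∃ U : (Fin g → Bool) → Set (V × Fin (g + 1)),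
      ∀ w v, v ∈ U w ↔ (det P w).out v = some true := ⟨fun w => {v | (det P w).out v = some true},
        fun w v => Iff.rfl⟩
  have hp0 : (0 : ℝ) ≤ (1 / 2) ^ g := by positivity
  have hfin : ∀ w : Fin g → Bool, Finite (V × Fin (g + 1)) := fun _ => inferInstance
  have h := hB (Fin g → Bool) (fun _ => (1 / 2 : ℝ) ^ g) (fun _ => V × Fin (g + 1))
    (fun w => det P w) U (fun _ => hp0) (sum_half g) (fun w => card_det hcard hL)
    ((1 / 2 : ℝ) ^ g) 0 le_rfl ?_ ?_
  · rw [mul_zero, zero_add] at h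
    exact h
  · intro x hx
    apply le_of_eq
    apply Finset.sum_eq_zero
    intro ω _
    rw [if_neg]
    rw [hU]
    intro hacc
    have h2 := (hP x).2 (det_acc P T x ω hacc)
    simp [hx] at h2
  · intro x hx
    obtain ⟨w, hw⟩ := acc_det P T x ((hP x).1 (by simp [hx]))
    refine le_trans ?_ (Finset.single_le_sum (f := fun ω : Fin g → Bool =>
      if ((det P ω).step x)^[T] (det P ω).start ∈ U ω then ((1 / 2 : ℝ) ^ g) else 0)
        (fun ω _ => by
          split_ifs
          · exact hp0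
          · exact le_rfl) (Finset.mem_univ w))
    show ((1 / 2 : ℝ) ^ g) ≤ if _ then ((1 / 2 : ℝ) ^ g) else 0
    rw [if_pos ((hU _ _).2 hw)]

end Pool.Agent.L0h58.HM
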