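import Pool.Agent.L0h58.HM.All
import Pool.Agent.L0h58.HN.Final
import Pool.Agent.L0h37.HM.SELB2
import Pool.Agent.L0h58.HM.Gue

/-!
# All parts together: the multiplicative bound
-/

set_option autoImplicit false

namespace Pool.Agent.L0h58.HM

open Finset Pool.Agent.L0h32.LT Pool.Agent.L0h32.LT2 Pool.Agent.L0h58.HN

/-- The family of functions. -/
theorem family2 :
    ∃ f : (n g : ℕ) → Inp n → Bool,
      (∀ n g, 1 ≤ n → n ≤ 2 ^ g → NonP n g (2 ^ (14 * g)) (f n g)) ∧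
      ∀ k : ℕ, ∃ W n₀ : ℕ, 1 ≤ W ∧ ∀ n ≥ n₀, ∀ g : ℕ, n ≤ 2 ^ g → W * g ≤ n →
        ∀ T ≤ k * n, ∀ h : ℕ, 1 ≤ h → W * (h * (Nat.log 2 n + 1)) ≤ n →
          Blind2 n T (2 ^ ((n : ℝ) / (W * h))) ((n : ℝ) / g * (1 / 2) ^ g) ((1 / 2) ^ h)
            (f n g) := by
  have hMGF := Pool.Agent.L0h85.HN.t_MGF
  have hVDM := Pool.Agent.L0h85.HN.t_VDM
  have hFIB := Pool.Agent.LLead.LT2.t_FIB
  have hLAB := t_LAB2 (Pool.Agent.L0h37.HN.t_CON hMGF)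
    (Pool.Agent.L0h85.HN.t_SMP hMGF) Pool.Agent.L0h37.HN.t_SELX
  have hRCT := Pool.Agent.L0h11.HN.t_RCT
    (Pool.Agent.L0h76.HN.t_COR2 Pool.Agent.L0h37.HN.t_DEN2) hVDM hFIB
  have hUNI := Pool.Agent.L0h85.HN.t_UNI Pool.Agent.L0h76.HN.t_ZER2 hVDM hFIB
  exact all2 (t_DET2 hLAB hRCT) hUNI Pool.Agent.L0h6.HN.t_NON2 Pool.Agent.L0h6.HN.t_PAR3
    Pool.Agent.LLead.LT.t_RNK Pool.Agent.LLead.LT.t_CNT Pool.Agent.L0h37.HM.t_SELB2

/-- The number of nodes with the counter of the guesses. -/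
theorem counter {n B h W g' : ℕ} (hW : 1 ≤ W) (hh : 1 ≤ h) (hgh : g' < h)
    (hWh : 2 * W * (h * (Nat.log 2 n + 1)) ≤ n) (hB : (B : ℝ) ≤ 2 ^ ((n : ℝ) / (2 * W * h))) :
    (((g' + 1) * B : ℕ) : ℝ) ≤ 2 ^ ((n : ℝ) / (W * h)) := by
  have hWr : (0 : ℝ) < W := by exact_mod_cast hW
  have hhr : (0 : ℝ) < h := by exact_mod_cast hh
  have h2 : ((g' + 1 : ℕ) : ℝ) ≤ 2 ^ ((n : ℝ) / (2 * W * h)) := by
    have h3 : g' + 1 ≤ 2 ^ (Nat.log 2 n + 1) := by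
      have h4 : h ≤ n := by
        refine le_trans ?_ hWh
        calc h = 1 * (h * 1) := by ring
          _ ≤ 2 * W * (h * (Nat.log 2 n + 1)) :=
            Nat.mul_le_mul (by omega) (Nat.mul_le_mul_left _ (by omega))
      have h5 : n < 2 ^ (Nat.log 2 n + 1) := Nat.lt_pow_succ_log_self (by norm_num) n
      omega
    have h4 : ((g' + 1 : ℕ) : ℝ) ≤ (2 : ℝ) ^ (((Nat.log 2 n + 1 : ℕ)) : ℝ) := by
      rw [Real.rpow_natCast]
      exact_mod_cast h3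
    refine h4.trans (Real.rpow_le_rpow_of_exponent_le (by norm_num) ?_)
    rw [le_div_iff₀ (by positivity)]
    have h5 : ((2 * W * (h * (Nat.log 2 n + 1)) : ℕ) : ℝ) ≤ n := by exact_mod_cast hWh
    push_cast at h5 ⊢
    linarith
  have h6 : (((g' + 1) * B : ℕ) : ℝ) = ((g' + 1 : ℕ) : ℝ) * B := by push_cast; ring
  rw [h6]
  have h7 : (2 : ℝ) ^ ((n : ℝ) / (2 * W * h)) * 2 ^ ((n : ℝ) / (2 * W * h)) =
      2 ^ ((n : ℝ) / (W * h)) := by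
    rw [← Real.rpow_add (by norm_num)]
    congr 1
    field_simp
    ring
  rw [← h7]
  exact mul_le_mul h2 hB (Nat.cast_nonneg _) (by positivity)

/-- The bound for nondeterministic programs. -/
theorem nondet2 {n T B g h W g' : ℕ} {f : Inp n → Bool} (hW : 1 ≤ W) (hh : 1 ≤ h)
    (hWh : 2 * W * (h * (Nat.log 2 n + 1)) ≤ n)
    (hb : Blind2 n T (2 ^ ((n : ℝ) / (W * h))) ((n : ℝ) / g * (1 / 2) ^ g) ((1 / 2) ^ h) f)
    (hf : Guess n T B g' f) (hB : (B : ℝ) ≤ 2 ^ ((n : ℝ) / (2 * W * h))) :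
    (1 / 2 : ℝ) ^ g' ≤ (n : ℝ) / g * (1 / 2) ^ g + (1 / 2) ^ h := by
  rcases le_or_gt h g' with h1 | h1
  · have h2 : (1 / 2 : ℝ) ^ g' ≤ (1 / 2) ^ h :=
      pow_le_pow_of_le_one (by norm_num) (by norm_num) h1
    have h3 : (0 : ℝ) ≤ (n : ℝ) / g * (1 / 2) ^ g := by positivity
    linarith
  · exact t_GUE2 n T B g' _ _ _ f (by positivity) hb hf
      (counter hW hh h1 hWh hB)

/-- The bound for the complement. -/
theorem nondet3 {n T B g h W g' : ℕ} {f : Inp n → Bool} (hW : 1 ≤ W) (hh : 1 ≤ h)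
    (hWh : 2 * W * (h * (Nat.log 2 n + 1)) ≤ n)
    (hb : Blind2 n T (2 ^ ((n : ℝ) / (W * h))) ((n : ℝ) / g * (1 / 2) ^ g) ((1 / 2) ^ h) f)
    (hf : Guess n T B g' (fun x => !f x)) (hB : (B : ℝ) ≤ 2 ^ ((n : ℝ) / (2 * W * h))) :
    h ≤ g' := by
  by_contra h1
  rw [not_le] at h1
  have h2 := t_GUE3 n T B g' _ _ _ f hb hf (counter hW hh h1 hWh hB)
  have h3 : (1 / 2 : ℝ) ^ h < (1 / 2) ^ g' :=
    pow_lt_pow_right_of_lt_one₀ (by norm_num) (by norm_num) h1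
  linarith

end Pool.Agent.L0h58.HM
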