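import Pool.Agent.L0h58.HN.Key
import Pool.Agent.L0h58.HM.Trn

/-!
# The classes of inputs of a machine, with short records
-/

set_option autoImplicit false

namespace Pool.Agent.L0h58.HM

open Finset Pool.Agent.L0h32.LT Pool.Agent.L0h58.HN

/-- The segments of a mixed input. -/
theorem mix_seg {n : ℕ} {V : Type} {P : Mach n V} {ℓ r : ℕ} {β : ℕ → V} {F : Fin r → ℕ}
    {Z : Finset (Fin n)} {x y : Inp n} (hA : Lb P ℓ β F Z 0 x = Lb P ℓ β F Z 0 y)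
    (hxy : ∀ i, i ∉ Lb P ℓ β F Z 0 x → i ∉ Lb P ℓ β F Z 1 x → x i = y i) (i : Fin n) (s : Fin r) :
    (s ∈ tt P ℓ β r (mix (Lb P ℓ β F Z 1 x) x y) i ↔ s ∈ tt P ℓ β r x i) ∨
      (s ∈ tt P ℓ β r (mix (Lb P ℓ β F Z 1 x) x y) i ↔ s ∈ tt P ℓ β r y i) := by
  obtain ⟨h1, h2⟩ := mix_agree hA hxy
  by_cases hs : F s = 1
  · right
    have h3 := seg_eq h2 s (by rw [hs]; norm_num)
    rw [mem_tt, mem_tt, h3]
  · left
    have h3 := seg_eq h1 s hs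
    rw [mem_tt, mem_tt, h3]

section
variable {n : ℕ} {V : Type} (P : Mach n V) (ℓ r : ℕ) (v₀ : V) (m : ℕ) {σ : ℕ} (S : Fin σ → Fin n)
  (Fl : (Fin σ → Finset (Fin r)) → Fin r → ℕ) (Z : (Fin σ → Finset (Fin r)) → Finset (Fin n))

/-- The record: the first readings of the sampled variables. -/
def rcd (x : Inp n) : Fin σ → Finset (Fin r) := fun a => trn m (tt P ℓ (bd P ℓ v₀ x) r x (S a))

/-- The sets of the variables that are only read in segments with the label `a`. -/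
def La (a : ℕ) (x : Inp n) : Finset (Fin n) :=
  Lb P ℓ (bd P ℓ v₀ x) (Fl (rcd P ℓ r v₀ m S x)) (Z (rcd P ℓ r v₀ m S x)) a x

/-- Two inputs are in the same class. -/
def Cls (x y : Inp n) : Prop :=
  stl P ℓ r v₀ x = stl P ℓ r v₀ y ∧ rcd P ℓ r v₀ m S x = rcd P ℓ r v₀ m S y ∧
    La P ℓ r v₀ m S Fl Z 0 x = La P ℓ r v₀ m S Fl Z 0 y ∧
    La P ℓ r v₀ m S Fl Z 1 x = La P ℓ r v₀ m S Fl Z 1 y ∧
    ∀ i, i ∉ La P ℓ r v₀ m S Fl Z 0 x → i ∉ La P ℓ r v₀ m S Fl Z 1 x → x i = y i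

/-- The key of a class. -/
def key (x : Inp n) : (Fin (r + 1) → V) × (Fin σ → Finset (Fin r)) × Finset (Fin n) ×
    Finset (Fin n) × Inp n :=
  (stl P ℓ r v₀ x, rcd P ℓ r v₀ m S x, La P ℓ r v₀ m S Fl Z 0 x, La P ℓ r v₀ m S Fl Z 1 x,
    fun i => if i ∈ La P ℓ r v₀ m S Fl Z 0 x ∨ i ∈ La P ℓ r v₀ m S Fl Z 1 x then false else x i)

theorem key_iff (x y : Inp n) :
    key P ℓ r v₀ m S Fl Z x = key P ℓ r v₀ m S Fl Z y ↔ Cls P ℓ r v₀ m S Fl Z x y := by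
  unfold key Cls
  constructor
  · intro h
    obtain ⟨h1, h⟩ := Prod.ext_iff.1 h
    obtain ⟨h2, h⟩ := Prod.ext_iff.1 h
    obtain ⟨h3, h⟩ := Prod.ext_iff.1 h
    obtain ⟨h4, h5⟩ := Prod.ext_iff.1 h
    dsimp only at h1 h2 h3 h4 h5
    refine ⟨h1, h2, h3, h4, fun i hi hi' => ?_⟩
    have h6 := congrFun h5 i
    rw [if_neg (by rintro (h | h); exacts [hi h, hi' h]),
      if_neg (by rw [← h3, ← h4]; rintro (h | h); exacts [hi h, hi' h])] at h6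
    exact h6
  · rintro ⟨h1, h2, h3, h4, h5⟩
    rw [h1, h2, h3, h4]
    refine Prod.ext rfl (Prod.ext rfl (Prod.ext rfl (Prod.ext rfl ?_)))
    funext i
    dsimp only
    split_ifs with h
    · rfl
    · rw [not_or, ← h3, ← h4] at h
      exact h5 i h.1 h.2

variable {P ℓ r v₀ m S Fl Z}

theorem La_ext {x : Inp n} {b : Fin (r + 1) → V} {c : Fin σ → Finset (Fin r)}
    (h : stl P ℓ r v₀ x = b) (h' : rcd P ℓ r v₀ m S x = c) (a : ℕ) :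
    La P ℓ r v₀ m S Fl Z a x = Lb P ℓ (HN.ext b) (Fl c) (Z c) a x := by
  unfold La Lb
  rw [tt_ext h, h']

/-- The classes are closed under mixing. -/
theorem cls_mix {x₀ x y : Inp n} (hx : Cls P ℓ r v₀ m S Fl Z x x₀)
    (hy : Cls P ℓ r v₀ m S Fl Z y x₀) :
    Cls P ℓ r v₀ m S Fl Z (mix (La P ℓ r v₀ m S Fl Z 1 x₀) x y) x₀ := by
  obtain ⟨hx1, hx2, hx3, hx4, hx5⟩ := hx
  obtain ⟨hy1, hy2, hy3, hy4, hy5⟩ := hy
  obtain ⟨b, hb⟩ : ∃ b, b = stl P ℓ r v₀ x₀ := ⟨_, rfl⟩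
  obtain ⟨c, hc⟩ : ∃ c, c = rcd P ℓ r v₀ m S x₀ := ⟨_, rfl⟩
  rw [← hb] at hx1 hy1
  rw [← hc] at hx2 hy2
  have ex := La_ext (Fl := Fl) (Z := Z) hx1 hx2
  have ey := La_ext (Fl := Fl) (Z := Z) hy1 hy2
  have hA : Lb P ℓ (HN.ext b) (Fl c) (Z c) 0 x = Lb P ℓ (HN.ext b) (Fl c) (Z c) 0 y := by
    rw [← ex, ← ey, hx3, hy3]
  have hB : La P ℓ r v₀ m S Fl Z 1 x₀ = Lb P ℓ (HN.ext b) (Fl c) (Z c) 1 x := by rw [← hx4, ex]
  have hxy : ∀ i, i ∉ Lb P ℓ (HN.ext b) (Fl c) (Z c) 0 x → i ∉ Lb P ℓ (HN.ext b) (Fl c) (Z c) 1 x →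
      x i = y i := by
    intro i hi hi'
    rw [← ex] at hi hi'
    rw [hx5 i hi hi']
    refine (hy5 i ?_ ?_).symm
    · rw [hy3, ← hx3]; exact hi
    · rw [hy4, ← hx4]; exact hi'
  rw [hB]
  obtain ⟨w, hw⟩ : ∃ w, w = mix (Lb P ℓ (HN.ext b) (Fl c) (Z c) 1 x) x y := ⟨_, rfl⟩
  have h1 : ∀ s ≤ r, bd P ℓ v₀ w s = ext b s := by
    rw [hw]
    exact bd_mix (bd_ext hx1) (bd_ext hy1) hA hxy
  have h2 : stl P ℓ r v₀ w = b := by
    funext s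
    have := h1 s (by have := s.isLt; omega)
    unfold stl
    rw [this]
    unfold HN.ext
    rw [dif_pos (by have := s.isLt; omega)]
  have h3 : rcd P ℓ r v₀ m S w = c := by
    funext a
    have e1 : rcd P ℓ r v₀ m S x a = trn m (tt P ℓ (HN.ext b) r x (S a)) := by
      unfold rcd
      rw [tt_ext hx1]
    have e2 : rcd P ℓ r v₀ m S y a = trn m (tt P ℓ (HN.ext b) r y (S a)) := by
      unfold rcd
      rw [tt_ext hy1]
    have e3 : rcd P ℓ r v₀ m S w a = trn m (tt P ℓ (HN.ext b) r w (S a)) := by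
      unfold rcd
      rw [tt_ext h2]
    have hseg := mix_seg hA hxy (S a)
    rw [← hw] at hseg
    rw [e3, trn_mix (T₁ := tt P ℓ (HN.ext b) r x (S a)) (T₂ := tt P ℓ (HN.ext b) r y (S a))
      (by rw [← e1, ← e2, hx2, hy2]) (fun s hs => ?_) (fun s hs hs' => ?_) hseg, ← e1, hx2]
    · rcases hseg s with h | h
      · exact Or.inl (h.1 hs)
      · exact Or.inr (h.1 hs)
    · rcases hseg s with h | h
      · exact h.2 hs
      · exact h.2 hs'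
  have h4 := La_ext (Fl := Fl) (Z := Z) h2 h3
  obtain ⟨h5, h6⟩ := mix_Lb hA hxy
  rw [← hw] at h5 h6
  have h7 : La P ℓ r v₀ m S Fl Z 0 w = La P ℓ r v₀ m S Fl Z 0 x₀ := by rw [h4, h5, ← ex, hx3]
  have h8 : La P ℓ r v₀ m S Fl Z 1 w = La P ℓ r v₀ m S Fl Z 1 x₀ := by rw [h4, h6, ← ex, hx4]
  rw [← hw]
  refine ⟨by rw [h2, hb], by rw [h3, hc], h7, h8, fun i hi hi' => ?_⟩
  rw [h4] at hi'
  rw [h6] at hi'
  have h9 : w i = x i := by
    rw [hw]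
    unfold mix
    rw [if_neg hi']
  rw [h9]
  refine hx5 i ?_ ?_
  · rw [hx3, ← h7]; exact hi
  · rw [ex]; exact hi'

end

end Pool.Agent.L0h58.HM
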