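import Pool.Agent.LLead.LT.Rnk

/-!
# Matrices all of whose large sets of rows have almost full rank
-/

set_option autoImplicit false

namespace Pool.Agent.L0h58.HM

open Finset Pool.Agent.L0h32.LT Pool.Agent.LLead.LT

/-- Almost full rank, with a small deficiency. -/
theorem rnk2 (n m s : ℕ) (ι : Type) [Fintype ι]
    (hnm : n.choose m * 2 ^ (Fintype.card ι * (s + 1)) < 2 ^ ((s + 1) * m)) :
    ∃ M : Fin n → (ι → ZMod 2), ∀ A : Finset (Fin n), m ≤ A.card →
      Fintype.card ι ≤ Module.finrank (ZMod 2) (Submodule.span (ZMod 2) (M '' A)) + s := by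
  classical
  by_contra hcon
  push Not at hcon
  set N := Fintype.card ι with hN
  let Idx : Finset (Finset (Fin n) × (Fin (s + 1) → (ι → ZMod 2))) :=
    univ.filter fun P => P.1.card = m ∧ LinearIndependent (ZMod 2) P.2
  let kr : (Fin (s + 1) → (ι → ZMod 2)) → Finset (ι → ZMod 2) := fun Y =>
    univ.filter fun v => ∀ j, Y j ⬝ᵥ v = 0
  let Bad : Finset (Fin n) × (Fin (s + 1) → (ι → ZMod 2)) → Finset (Fin n → (ι → ZMod 2)) :=
    fun P => Fintype.piFinset fun i => if i ∈ P.1 then kr P.2 else univ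
  have hcov : (univ : Finset (Fin n → (ι → ZMod 2))) ⊆ Idx.biUnion Bad := by
    intro M _
    obtain ⟨A', hA', hr'⟩ := hcon M
    obtain ⟨A, hAA, hA⟩ := exists_subset_card_eq hA'
    have hr : Module.finrank (ZMod 2) (Submodule.span (ZMod 2) (M '' (A : Set (Fin n)))) + s < N := by
      refine lt_of_le_of_lt (Nat.add_le_add_right ?_ s) hr'
      exact Submodule.finrank_mono (Submodule.span_mono (Set.image_mono (by exact_mod_cast hAA)))
    obtain ⟨Y, hY, hv⟩ := exists_Y (Submodule.span (ZMod 2) (M '' A)) s (by omega)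
    rw [mem_biUnion]
    refine ⟨(A, Y), mem_filter.2 ⟨mem_univ _, hA, hY⟩, ?_⟩
    rw [Fintype.mem_piFinset]
    intro i
    simp only
    split_ifs with hi
    · refine mem_filter.2 ⟨mem_univ _, fun j => hv j _ (Submodule.subset_span ⟨i, hi, rfl⟩)⟩
    · exact mem_univ _
  have hW : Fintype.card (ι → ZMod 2) = 2 ^ N := by simp [hN]
  have hkr : ∀ Y : Fin (s + 1) → (ι → ZMod 2), LinearIndependent (ZMod 2) Y →
      (kr Y).card * 2 ^ (s + 1) = 2 ^ N := by
    intro Y hY
    rw [hN, ← card_ker Y hY]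
    congr 1
    rw [Nat.card_eq_fintype_card, Fintype.card_subtype]
    congr 1
    ext v
    simp only [kr, mem_filter, mem_univ, true_and, LinearMap.mem_ker, dots, LinearMap.coe_mk,
      AddHom.coe_mk]
    exact ⟨fun h => funext h, fun h j => congrFun h j⟩
  have hbad : ∀ P ∈ Idx, (Bad P).card * 2 ^ ((s + 1) * m) ≤ (2 ^ N) ^ n := by
    intro P hP
    obtain ⟨-, hA, hY⟩ := mem_filter.1 hP
    have h1 : (Bad P).card = (kr P.2).card ^ P.1.card * (2 ^ N) ^ (n - P.1.card) := by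
      simp only [Bad]
      rw [Fintype.card_piFinset]
      have h2 : ∀ i : Fin n, (if i ∈ P.1 then kr P.2 else univ).card =
          if i ∈ P.1 then (kr P.2).card else 2 ^ N := by
        intro i
        split_ifs
        · rfl
        · rw [card_univ, hW]
      rw [prod_congr rfl fun i _ => h2 i, prod_ite, prod_const, prod_const]
      congr 2
      · congr 1; ext i; simp
      · rw [filter_not, card_sdiff_of_subset (filter_subset _ _), card_univ, Fintype.card_fin]
        congr 2; ext i; simp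
    have hAn : P.1.card ≤ n := by simpa using card_le_univ P.1
    calc (Bad P).card * 2 ^ ((s + 1) * m)
        = (Bad P).card * 2 ^ ((s + 1) * P.1.card) := by rw [hA]
      _ = ((kr P.2).card * 2 ^ (s + 1)) ^ P.1.card * (2 ^ N) ^ (n - P.1.card) := by
          rw [h1, mul_pow, ← pow_mul 2 (s + 1)]; ring
      _ = (2 ^ N) ^ n := by
          rw [hkr _ hY, ← pow_add]; congr 1; omega
      _ ≤ (2 ^ N) ^ n := le_rfl
  have hidx : Idx.card ≤ n.choose m * (2 ^ N) ^ (s + 1) := by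
    calc Idx.card ≤ (powersetCard m (univ : Finset (Fin n)) ×ˢ
          (univ : Finset (Fin (s + 1) → (ι → ZMod 2)))).card := by
          apply card_le_card
          intro P hP
          obtain ⟨-, hA, -⟩ := mem_filter.1 hP
          exact mem_product.2 ⟨mem_powersetCard.2 ⟨subset_univ _, hA⟩, mem_univ _⟩
      _ = _ := by
          rw [card_product, card_powersetCard, card_univ, card_univ, Fintype.card_fin,
            Fintype.card_fun, hW, Fintype.card_fin]
  have hall : (2 ^ N) ^ n * 2 ^ ((s + 1) * m) ≤ (n.choose m * (2 ^ N) ^ (s + 1)) * (2 ^ N) ^ n := by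
    calc (2 ^ N) ^ n * 2 ^ ((s + 1) * m)
        = (univ : Finset (Fin n → (ι → ZMod 2))).card * 2 ^ ((s + 1) * m) := by
          rw [card_univ, Fintype.card_fun, hW, Fintype.card_fin]
      _ ≤ (Idx.biUnion Bad).card * 2 ^ ((s + 1) * m) :=
          Nat.mul_le_mul_right _ (card_le_card hcov)
      _ ≤ (∑ P ∈ Idx, (Bad P).card) * 2 ^ ((s + 1) * m) :=
          Nat.mul_le_mul_right _ card_biUnion_le
      _ = ∑ P ∈ Idx, (Bad P).card * 2 ^ ((s + 1) * m) := by rw [sum_mul]
      _ ≤ ∑ P ∈ Idx, (2 ^ N) ^ n := sum_le_sum hbad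
      _ = Idx.card * (2 ^ N) ^ n := by rw [sum_const, smul_eq_mul]
      _ ≤ _ := Nat.mul_le_mul_right _ hidx
  have h2 : 2 ^ ((s + 1) * m) ≤ n.choose m * (2 ^ N) ^ (s + 1) := by
    have hp : 0 < (2 ^ N) ^ n := by positivity
    apply Nat.le_of_mul_le_mul_left _ hp
    calc (2 ^ N) ^ n * 2 ^ ((s + 1) * m) ≤ _ := hall
      _ = _ := by ring
  rw [← pow_mul] at h2
  omega

/-- Binomial coefficients. -/
theorem choose_bd (n m b : ℕ) : n.choose m * 2 ^ (b * n) ≤ 2 ^ (b * m) * (2 ^ b + 1) ^ n := by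
  rcases lt_or_ge n m with h | h
  · rw [Nat.choose_eq_zero_of_lt h, zero_mul]
    exact Nat.zero_le _
  · have h1 : (2 ^ b) ^ (n - m) * n.choose m ≤ (1 + 2 ^ b) ^ n := by
      rw [add_pow]
      refine le_trans ?_ (single_le_sum (f := fun i => 1 ^ i * (2 ^ b) ^ (n - i) * n.choose i)
        (fun i _ => Nat.zero_le _) (mem_range.2 (Nat.lt_succ_of_le h)))
      simp
    have h2 : n.choose m * 2 ^ (b * n) = 2 ^ (b * m) * ((2 ^ b) ^ (n - m) * n.choose m) := by
      have h3 : b * n = b * m + b * (n - m) := by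
        rw [← Nat.mul_add]
        congr 1
        omega
      rw [h3, pow_add, ← pow_mul]
      ring
    rw [h2, add_comm (2 ^ b) 1]
    exact Nat.mul_le_mul_left _ h1

theorem choose_bd2 {n m b : ℕ} (h : n ≤ 2 ^ b * (m + 1)) :
    n.choose m ≤ 2 ^ (b * m + 2 * (m + 1)) := by
  have h1 := choose_bd n m b
  have h2 : ((2 : ℝ) ^ b + 1) ^ n ≤ (2 ^ b) ^ n * 4 ^ (m + 1) := by
    have h3 : (2 : ℝ) ^ b + 1 = 2 ^ b * (1 + 1 / 2 ^ b) := by
      field_simp
    rw [h3, mul_pow]
    apply mul_le_mul_of_nonneg_left _ (by positivity)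
    have h4 : (1 : ℝ) + 1 / 2 ^ b ≤ Real.exp (1 / 2 ^ b) := by
      rw [add_comm]
      exact Real.add_one_le_exp _
    have h5 : ((1 : ℝ) + 1 / 2 ^ b) ^ n ≤ Real.exp (1 / 2 ^ b) ^ n :=
      pow_le_pow_left₀ (by positivity) h4 n
    refine h5.trans ?_
    rw [← Real.exp_nat_mul]
    have h6 : (n : ℝ) * (1 / 2 ^ b) ≤ ((m + 1 : ℕ) : ℝ) := by
      rw [mul_one_div, div_le_iff₀ (by positivity)]
      have : ((2 ^ b * (m + 1) : ℕ) : ℝ) = ((m + 1 : ℕ) : ℝ) * 2 ^ b := by push_cast; ring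
      rw [← this]
      exact_mod_cast h
    refine (Real.exp_le_exp.2 h6).trans ?_
    rw [← Real.exp_one_pow]
    refine pow_le_pow_left₀ (Real.exp_pos 1).le ?_ _
    have := Real.exp_one_lt_d9
    linarith
  have h7 : (2 ^ b + 1) ^ n ≤ (2 ^ b) ^ n * 4 ^ (m + 1) := by exact_mod_cast h2
  have h8 : n.choose m * 2 ^ (b * n) ≤ 2 ^ (b * m + 2 * (m + 1)) * 2 ^ (b * n) := by
    refine h1.trans ((Nat.mul_le_mul_left _ h7).trans (le_of_eq ?_))
    have h9 : (4 : ℕ) ^ (m + 1) = 2 ^ (2 * (m + 1)) := by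
      rw [pow_mul]
      norm_num
    rw [h9, ← pow_mul, pow_add]
    ring
  exact Nat.le_of_mul_le_mul_right h8 (by positivity)

/-- The condition of `rnk2`. -/
theorem rnk_cond {n m d c : ℕ} (hn : n < 2 * 2 ^ d * (m + 1)) (hc : 4 * c ≤ m) (hm : 1 ≤ m) :
    n.choose m * 2 ^ (c * (2 * d + 7 + 1)) < 2 ^ ((2 * d + 7 + 1) * m) := by
  have h1 : n.choose m ≤ 2 ^ ((d + 1) * m + 2 * (m + 1)) := by
    apply choose_bd2
    refine hn.le.trans (le_of_eq ?_)
    rw [pow_succ]
    ring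
  calc n.choose m * 2 ^ (c * (2 * d + 7 + 1)) ≤
      2 ^ ((d + 1) * m + 2 * (m + 1)) * 2 ^ (c * (2 * d + 7 + 1)) := Nat.mul_le_mul_right _ h1
    _ = 2 ^ ((d + 1) * m + 2 * (m + 1) + c * (2 * d + 7 + 1)) := (pow_add _ _ _).symm
    _ < 2 ^ ((2 * d + 7 + 1) * m) := by
      apply Nat.pow_lt_pow_right (by norm_num)
      have h2 : 4 * (c * (2 * d + 8)) ≤ m * (2 * d + 8) := by
        calc 4 * (c * (2 * d + 8)) = 4 * c * (2 * d + 8) := by ring
          _ ≤ m * (2 * d + 8) := Nat.mul_le_mul_right _ hc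
      have e1 : m * (2 * d + 8) = 2 * (d * m) + 8 * m := by ring
      have e2 : (2 * d + 7 + 1) * m = 2 * (d * m) + 8 * m := by ring
      have e3 : (d + 1) * m = d * m + m := by ring
      have e4 : c * (2 * d + 7 + 1) = c * (2 * d + 8) := by ring
      rw [e2, e3, e4]
      rw [e1] at h2
      omega

end Pool.Agent.L0h58.HM
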