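import Pool.Agent.L0h58.HM.Blind
import Pool.Agent.L0h58.HM.Rnk

/-!
# Explicit dependence on the time
-/

set_option autoImplicit false

namespace Pool.Agent.L0h58.HM

open Finset Pool.Agent.L0h32.LT Pool.Agent.L0h32.LT2 Pool.Agent.L0h58.HN

/-- The advantage. -/
theorem adv3 {n D g s Δ : ℕ} {ex a b κ N q ε : ℝ} {h : ℕ} (hD1 : 1 ≤ D) (hg : 1 ≤ g)
    (hng : n ≤ 2 ^ g) (hs : s ≤ 4 * D)
    (hsg : s ≤ g) (hgn : 4096 * D * g ≤ n) (hΔ : 512 * D * Δ ≤ n)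
    (hex : ex ≤ 1 / 2 * (1 / 2) ^ h) (hex0 : 0 ≤ ex) (hb : 0 ≤ b)
    (hκ : κ = 2 * ((s + 2 * (3 * Δ)) / (2 * g) : ℕ) + 2) (hN : N = 2 ^ g) (hq : q = 2 ^ (2 * g))
    (hε : ε = 2 ^ s / q ^ 2)
    (hmain : (1 - κ / N) * (1 - (1 + ε) * (N / q)) * a ≤ (1 + ε) * b + ex) :
    a ≤ (1 + (n : ℝ) / g * (1 / 2) ^ g) * b + (1 / 2) ^ h := by
  have hgr : (1 : ℝ) ≤ g := by exact_mod_cast hg
  have hDr : (1 : ℝ) ≤ D := by exact_mod_cast hD1
  obtain ⟨t, ht⟩ : ∃ t : ℝ, t = (1 / 2) ^ g := ⟨_, rfl⟩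
  have ht0 : 0 < t := by rw [ht]; positivity
  have ht1 : t ≤ 1 := by
    rw [ht]
    exact pow_le_one₀ (by norm_num) (by norm_num)
  have hinv : (2 : ℝ) ^ g = 1 / t := by
    rw [ht, one_div_pow, one_div_one_div]
  have hqt : q = 1 / t ^ 2 := by
    rw [hq, mul_comm 2 g, pow_mul, hinv, div_pow, one_pow]
  have e1 : N / q = t := by
    rw [hN, hqt, hinv]
    field_simp
  have hε0 : 0 ≤ ε := by
    rw [hε]
    positivity
  have e2 : ε ≤ t := by
    have h1 : (2 : ℝ) ^ s ≤ 1 / t := by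
      rw [← hinv]
      exact pow_le_pow_right₀ (by norm_num) (by omega)
    rw [hε, hqt]
    have h2 : ((1 / t ^ 2) ^ 2) = 1 / t ^ 4 := by
      field_simp
    rw [h2, div_le_iff₀ (by positivity), mul_one_div, le_div_iff₀ (by positivity)]
    have h3 : (2 : ℝ) ^ s * t ^ 4 ≤ 1 / t * t ^ 4 := mul_le_mul_of_nonneg_right h1 (by positivity)
    have h4 : 1 / t * t ^ 4 = t ^ 3 := by
      field_simp
    have h5 : t ^ 3 ≤ t := by
      have h6 : t ^ 2 ≤ 1 := pow_le_one₀ ht0.le ht1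
      calc t ^ 3 = t * t ^ 2 := by ring
        _ ≤ t * 1 := mul_le_mul_of_nonneg_left h6 ht0.le
        _ = t := mul_one t
    linarith
  have e3 : κ ≤ (4 * D + 6 * Δ) / g + 2 := by
    have h1 : (((s + 2 * (3 * Δ)) / (2 * g) : ℕ) : ℝ) ≤ (4 * D + 6 * Δ) / (2 * g) := by
      refine (Nat.cast_div_le (α := ℝ)).trans ?_
      have hsr : (s : ℝ) ≤ 4 * D := by exact_mod_cast hs
      push_cast
      apply div_le_div_of_nonneg_right _ (by linarith)
      linarith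
    have h2 : (4 * (D : ℝ) + 6 * Δ) / g = 2 * ((4 * D + 6 * Δ) / (2 * g)) := by
      field_simp
    rw [hκ, h2]
    linarith
  have hκ0 : 0 ≤ κ := by
    rw [hκ]
    positivity
  -- the main numerical condition
  have e4 : 2 * κ + 6 ≤ n / g := by
    have h0 : 2 * κ + 6 ≤ 10 + (8 * (D : ℝ) + 12 * Δ) / g := by
      have : (8 * (D : ℝ) + 12 * Δ) / g = 2 * ((4 * D + 6 * Δ) / g) := by ring
      rw [this]
      linarith
    refine h0.trans ?_
    rw [← sub_nonneg]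
    have h1 : (n : ℝ) / g - (10 + ((8 * (D : ℝ) + 12 * Δ) / g)) =
        (n - (10 * g + (8 * D + 12 * Δ))) / g := by
      field_simp
    rw [h1]
    apply div_nonneg _ (by linarith)
    have h2 : ((4096 * D * g : ℕ) : ℝ) ≤ n := by exact_mod_cast hgn
    have h3 : ((512 * D * Δ : ℕ) : ℝ) ≤ n := by exact_mod_cast hΔ
    push_cast at h2 h3
    have h5 : (0 : ℝ) ≤ Δ := Nat.cast_nonneg _
    have h6 : (512 : ℝ) * Δ ≤ 512 * D * Δ := by nlinarith
    have h7 : (4096 : ℝ) * g ≤ 4096 * D * g := by nlinarith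
    have h8 : (4096 : ℝ) * D ≤ 4096 * D * g := by nlinarith
    linarith
  have e5 : (n : ℝ) / g * t ≤ 1 := by
    have h1 : (n : ℝ) ≤ 1 / t := by
      rw [← hinv]
      exact_mod_cast hng
    have h2 : (n : ℝ) * t ≤ 1 := by
      have := mul_le_mul_of_nonneg_right h1 ht0.le
      rwa [one_div_mul_cancel ht0.ne'] at this
    rw [div_mul_eq_mul_div, div_le_one (by linarith)]
    linarith
  obtain ⟨δ, hδ⟩ : ∃ δ : ℝ, δ = (n : ℝ) / g * t := ⟨_, rfl⟩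
  have e6 : (2 * κ + 6) * t ≤ δ := by
    rw [hδ]
    exact mul_le_mul_of_nonneg_right e4 ht0.le
  rw [e1] at hmain
  have hκN : κ / N = κ * t := by
    rw [hN, hinv]
    field_simp
  rw [hκN] at hmain
  rw [← ht, ← hδ]
  rw [← hδ] at e5
  have hRHS : 0 ≤ (1 + δ) * b + (1 / 2) ^ h := by
    have : 0 ≤ δ := by
      rw [hδ]
      positivity
    positivity
  rcases le_or_gt a 0 with ha | ha
  · linarith
  -- eta
  obtain ⟨η, hη⟩ : ∃ η : ℝ, η = κ * t + (1 + ε) * t := ⟨_, rfl⟩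
  have hη0 : 0 ≤ η := by
    rw [hη]
    positivity
  have hη1 : 2 * η + 2 * ε ≤ δ := by
    have h1 : ε * t ≤ 1 * t := mul_le_mul_of_nonneg_right (e2.trans ht1) ht0.le
    have h2 : (2 * κ + 6) * t = 2 * (κ * t) + 6 * t := by ring
    have h3 : η = κ * t + t + ε * t := by
      rw [hη]
      ring
    rw [h2] at e6
    linarith
  have g1 : (1 - η) * a ≤ (1 + ε) * b + ex := by
    refine le_trans (mul_le_mul_of_nonneg_right ?_ ha.le) hmain
    have h1 : (1 - κ * t) * (1 - (1 + ε) * t) = 1 - η + κ * t * ((1 + ε) * t) := by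
      rw [hη]
      ring
    rw [h1]
    have : 0 ≤ κ * t * ((1 + ε) * t) := by positivity
    linarith
  have hη2 : η ≤ 1 / 2 := by linarith
  have g2 : a ≤ (1 + 2 * η) * ((1 + ε) * b + ex) := by
    have h1 : a ≤ (1 + 2 * η) * ((1 - η) * a) := by
      have h2 : (1 + 2 * η) * ((1 - η) * a) = a + η * (1 - 2 * η) * a := by ring
      rw [h2]
      have : 0 ≤ η * (1 - 2 * η) * a :=
        mul_nonneg (mul_nonneg hη0 (by linarith)) ha.le
      linarith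
    exact h1.trans (mul_le_mul_of_nonneg_left g1 (by linarith))
  have g3 : (1 + 2 * η) * (1 + ε) ≤ 1 + δ := by
    have h1 : 2 * η * ε ≤ 1 * ε := mul_le_mul_of_nonneg_right (by linarith) hε0
    have h2 : (1 + 2 * η) * (1 + ε) = 1 + 2 * η + ε + 2 * η * ε := by ring
    rw [h2]
    linarith
  have g4 : (1 + 2 * η) * ex ≤ (1 / 2) ^ h := by
    have h1 : (1 + 2 * η) * ex ≤ 2 * ex := mul_le_mul_of_nonneg_right (by linarith) hex0
    linarith
  calc a ≤ (1 + 2 * η) * ((1 + ε) * b + ex) := g2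
    _ = (1 + 2 * η) * (1 + ε) * b + (1 + 2 * η) * ex := by ring
    _ ≤ (1 + δ) * b + (1 / 2) ^ h := add_le_add (mul_le_mul_of_nonneg_right g3 hb) g4

/-- Side conditions. -/
theorem side3 {n D g s Δ : ℕ} {κ N q ε : ℝ} (hD1 : 1 ≤ D) (hg : 1 ≤ g)
    (hng : n ≤ 2 ^ g) (hs : s ≤ 4 * D)
    (hsg : s ≤ g) (hgn : 4096 * D * g ≤ n) (hΔ : 512 * D * Δ ≤ n)
    (hκ : κ = 2 * ((s + 2 * (3 * Δ)) / (2 * g) : ℕ) + 2) (hN : N = 2 ^ g) (hq : q = 2 ^ (2 * g))
    (hε : ε = 2 ^ s / q ^ 2) : κ ≤ N ∧ (1 + ε) * N ≤ q := by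
  have hgr : (1 : ℝ) ≤ g := by exact_mod_cast hg
  have hDr : (1 : ℝ) ≤ D := by exact_mod_cast hD1
  constructor
  · have h1 : κ ≤ 6 * Δ + 4 * D + 2 := by
      have h2 : (((s + 2 * (3 * Δ)) / (2 * g) : ℕ) : ℝ) ≤ (s + 2 * (3 * Δ)) / 2 := by
        have h3 : (s + 2 * (3 * Δ)) / (2 * g) ≤ (s + 2 * (3 * Δ)) / 2 :=
          Nat.div_le_div_left (by omega) (by norm_num)
        have h4 : (((s + 2 * (3 * Δ)) / (2 * g) : ℕ) : ℝ) ≤ (((s + 2 * (3 * Δ)) / 2 : ℕ) : ℝ) := by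
          exact_mod_cast h3
        refine h4.trans ((Nat.cast_div_le (α := ℝ)).trans (le_of_eq ?_))
        push_cast
        ring
      have hsr : (s : ℝ) ≤ 4 * D := by exact_mod_cast hs
      rw [hκ]
      linarith
    have h5 : 6 * Δ + 4 * D + 2 ≤ n := by
      have h6 : 512 * 1 * Δ ≤ 512 * D * Δ := Nat.mul_le_mul_right _ (Nat.mul_le_mul_left _ hD1)
      have h7 : 4096 * D * 1 ≤ 4096 * D * g := Nat.mul_le_mul_left _ hg
      omega
    have h8 : ((6 * Δ + 4 * D + 2 : ℕ) : ℝ) ≤ ((2 ^ g : ℕ) : ℝ) := by exact_mod_cast h5.trans hng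
    push_cast at h8
    rw [hN]
    linarith
  · have hq0 : (0 : ℝ) < q := by
      rw [hq]
      positivity
    have h1 : ε ≤ 1 := by
      rw [hε, div_le_one (by positivity), hq, ← pow_mul]
      exact pow_le_pow_right₀ (by norm_num) (by omega)
    have h2 : q = N * N := by
      rw [hq, hN, ← pow_add]
      congr 1
      ring
    have hN0 : (0 : ℝ) < N := by
      rw [hN]
      positivity
    have h3 : (2 : ℝ) ≤ N := by
      rw [hN]
      calc (2 : ℝ) = 2 ^ 1 := by norm_num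
        _ ≤ 2 ^ g := pow_le_pow_right₀ (by norm_num) hg
    rw [h2]
    exact mul_le_mul_of_nonneg_right (by linarith) hN0.le


/-- The parameters are bounded by a power of `2 ^ (k ^ 3)`. -/
theorem par4 {J : ℕ} (hJ : 2 ≤ J) : ∃ y : ℕ, 2 ^ 17 * (dx J y + 15) ≤ 2 ^ y ∧
    dx J y ≤ 520 * J ^ 3 := by
  obtain ⟨a, ha1, ha2⟩ : ∃ a : ℕ, J ≤ 2 ^ a ∧ 2 ^ a < 2 * J := by
    have hex : ∃ n : ℕ, J ≤ 2 ^ n := ⟨J, Nat.lt_two_pow_self.le⟩
    refine ⟨Nat.find hex, Nat.find_spec hex, ?_⟩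
    have h2 : Nat.find hex ≠ 0 := by
      intro h0
      have h1 := Nat.find_spec hex
      rw [h0, pow_zero] at h1
      omega
    obtain ⟨j, hj⟩ := Nat.exists_eq_succ_of_ne_zero h2
    have h3 := Nat.find_min hex (m := j) (by omega)
    rw [hj, Nat.succ_eq_add_one, pow_succ]
    omega
  obtain ⟨b, hb⟩ : ∃ b : ℕ, b = 2 ^ a := ⟨_, rfl⟩
  rw [← hb] at ha1 ha2
  have hab : a ≤ b := by rw [hb]; exact Nat.lt_two_pow_self.le
  have hl : lam J (4 * a + 30) ≤ 23 * b := by unfold lam; omega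
  have hJb : J ^ 2 ≤ b ^ 2 := Nat.pow_le_pow_left ha1 2
  have h1 : lam J (4 * a + 30) * J ^ 2 ≤ 23 * b * b ^ 2 := Nat.mul_le_mul hl hJb
  have hb2 : 2 ≤ b := by omega
  have hb3 : 4 * b ≤ b ^ 3 := by
    have : b ^ 3 = b * b * b := by ring
    rw [this]
    have h4 : 2 * 2 ≤ b * b := Nat.mul_le_mul hb2 hb2
    nlinarith
  have h5 : dx J (4 * a + 30) + 15 ≤ 65 * b ^ 3 := by
    unfold dx
    have e1 : 2 * lam J (4 * a + 30) * J ^ 2 = 2 * (lam J (4 * a + 30) * J ^ 2) := by ring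
    have e2 : 23 * b * b ^ 2 = 23 * b ^ 3 := by ring
    rw [e1]
    rw [e2] at h1
    omega
  refine ⟨4 * a + 30, ?_, ?_⟩
  · calc 2 ^ 17 * (dx J (4 * a + 30) + 15) ≤ 2 ^ 17 * (65 * b ^ 3) := Nat.mul_le_mul_left _ h5
      _ ≤ 2 ^ 17 * (2 ^ 13 * (b ^ 3 * b)) := by
        apply Nat.mul_le_mul_left
        have : 65 * b ^ 3 ≤ 2 ^ 13 * b ^ 3 := Nat.mul_le_mul_right _ (by norm_num)
        refine this.trans (Nat.mul_le_mul_left _ ?_)
        exact Nat.le_mul_of_pos_right _ (by omega)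
      _ = 2 ^ (4 * a + 30) := by rw [hb]; ring
  · have h6 : b ^ 3 ≤ (2 * J) ^ 3 := Nat.pow_le_pow_left ha2.le 3
    have h7 : (2 * J) ^ 3 = 8 * J ^ 3 := by ring
    omega

/-- The size of `W`. -/
theorem size_W {k k' y d D E C1 C2 C3 W : ℕ} (hk' : k' = k + 2) (hd : d = dx (2 * k') y)
    (hd2 : d ≤ 520 * (2 * k') ^ 3) (hD : D = 2 ^ d) (hE : E = 2 ^ y)
    (hC1 : C1 = 64 * k' * E ^ 2 * D ^ 2) (hC2 : C2 = 2 * 4 ^ ee (2 * k') y * (4 + 2 * k'))
    (hC3 : C3 = 2 * C1 * (k + 1) + 2)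
    (hW : W = 4096 * D * ((C3 + 1) * ((2 * k' + 1) * C2 + 1))) :
    W ≤ 2 ^ (65536 * (k + 2) ^ 3) ∧ 2 ≤ d ∧ 768 * D * D ≤ W ∧ 8192 * D ≤ W ∧
      2 ^ (2 * d + 7) ≤ W := by
  have hdd : d = 2 * (lam (2 * k') y * (2 * k') ^ 2) + 2 * (2 * k') + 4 := by
    rw [hd]
    unfold dx
    ring
  have hlam : lam (2 * k') y = 2 * (2 * k') + y + 3 := rfl
  obtain ⟨l, hl⟩ : ∃ l, l = lam (2 * k') y := ⟨_, rfl⟩
  rw [← hl] at hdd hlam
  have hlJ : 16 * l ≤ l * (2 * k') ^ 2 := by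
    have h1 : 16 ≤ (2 * k') ^ 2 := by
      have : 4 ≤ 2 * k' := by omega
      calc 16 = 4 ^ 2 := by norm_num
        _ ≤ (2 * k') ^ 2 := Nat.pow_le_pow_left this 2
    calc 16 * l = l * 16 := Nat.mul_comm _ _
      _ ≤ _ := Nat.mul_le_mul_left _ h1
  have hee : ee (2 * k') y = d + l + 2 := by
    unfold ee
    rw [hdd, ← hl]
    ring
  have hyd : y ≤ d := by omega
  have hkd : 2 * k' + 4 ≤ d := by omega
  have hld : l + 2 ≤ d := by omega
  have hdD : d < D := by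
    rw [hD]
    exact Nat.lt_two_pow_self
  have hED : E ≤ D := by
    rw [hE, hD]
    exact Nat.pow_le_pow_right (by norm_num) hyd
  have hD1 : 1 ≤ D := by omega
  have b1 : C1 ≤ 64 * D ^ 5 := by
    rw [hC1]
    calc 64 * k' * E ^ 2 * D ^ 2 ≤ 64 * D * D ^ 2 * D ^ 2 :=
          Nat.mul_le_mul_right _ (Nat.mul_le_mul (Nat.mul_le_mul_left _ (by omega))
            (Nat.pow_le_pow_left hED 2))
      _ = 64 * D ^ 5 := by ring
  have b2 : C2 ≤ 2 * D ^ 5 := by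
    have h1 : 4 ^ ee (2 * k') y ≤ D ^ 4 := by
      have h2 : (4 : ℕ) = 2 ^ 2 := by norm_num
      rw [hee, hD, ← pow_mul, h2, ← pow_mul]
      exact Nat.pow_le_pow_right (by norm_num) (by omega)
    rw [hC2]
    calc 2 * 4 ^ ee (2 * k') y * (4 + 2 * k') ≤ 2 * D ^ 4 * D :=
          Nat.mul_le_mul (Nat.mul_le_mul_left _ h1) (by omega)
      _ = 2 * D ^ 5 := by ring
  have hD6 : 1 ≤ D ^ 6 := Nat.one_le_pow _ _ hD1
  have b3 : C3 ≤ 131 * D ^ 6 := by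
    rw [hC3]
    have h1 : 2 * C1 * (k + 1) ≤ 2 * (64 * D ^ 5) * D :=
      Nat.mul_le_mul (Nat.mul_le_mul_left _ b1) (by omega)
    have h2 : 2 * (64 * D ^ 5) * D = 128 * D ^ 6 := by ring
    omega
  have b4 : (2 * k' + 1) * C2 ≤ 2 * D ^ 6 := by
    calc (2 * k' + 1) * C2 ≤ D * (2 * D ^ 5) := Nat.mul_le_mul (by omega) b2
      _ = 2 * D ^ 6 := by ring
  have b5 : W ≤ 2 ^ 23 * D ^ 13 := by
    rw [hW]
    calc 4096 * D * ((C3 + 1) * ((2 * k' + 1) * C2 + 1)) ≤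
        4096 * D * ((512 * D ^ 6) * (4 * D ^ 6)) :=
          Nat.mul_le_mul_left _ (Nat.mul_le_mul (by omega) (by omega))
      _ = 2 ^ 23 * D ^ 13 := by ring
  have hC2D : 2 * (D * D) ≤ C2 := by
    have h1 : D * D ≤ 4 ^ ee (2 * k') y := by
      have h2 : (4 : ℕ) = 2 ^ 2 := by norm_num
      rw [hee, hD, ← pow_add, h2, ← pow_mul]
      exact Nat.pow_le_pow_right (by norm_num) (by omega)
    rw [hC2]
    calc 2 * (D * D) = 2 * (D * D) * 1 := (Nat.mul_one _).symm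
      _ ≤ 2 * 4 ^ ee (2 * k') y * (4 + 2 * k') :=
        Nat.mul_le_mul (Nat.mul_le_mul_left _ h1) (by omega)
  have b6 : 4096 * D * (2 * (D * D)) ≤ W := by
    rw [hW]
    apply Nat.mul_le_mul_left
    calc 2 * (D * D) = 1 * (2 * (D * D)) := (Nat.one_mul _).symm
      _ ≤ (C3 + 1) * ((2 * k' + 1) * C2 + 1) := by
        apply Nat.mul_le_mul (by omega)
        calc 2 * (D * D) ≤ C2 := hC2D
          _ = 1 * C2 := (Nat.one_mul _).symm
          _ ≤ (2 * k' + 1) * C2 := Nat.mul_le_mul_right _ (by omega)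
          _ ≤ _ := Nat.le_succ _
  have hDD : D * 1 ≤ D * D := Nat.mul_le_mul_left _ hD1
  have hDDD : D * D * 1 ≤ D * D * D := Nat.mul_le_mul_left _ hD1
  have b7 : 4096 * D * (2 * (D * D)) = 8192 * (D * D * D) := by ring
  rw [b7] at b6
  refine ⟨b5.trans ?_, by omega, ?_, by omega, ?_⟩
  · have h1 : (2 : ℕ) ^ 23 * D ^ 13 = 2 ^ (23 + 13 * d) := by
      rw [hD, ← pow_mul, pow_add]
      congr 2
      ring
    rw [h1]
    apply Nat.pow_le_pow_right (by norm_num)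
    have h2 : (2 * k') ^ 3 = 8 * (k + 2) ^ 3 := by
      rw [hk']
      ring
    have h3 : 1 ≤ (k + 2) ^ 3 := Nat.one_le_pow _ _ (by omega)
    omega
  · have h1 : 768 * D * D = 768 * (D * D) := by ring
    omega
  · have h1 : 2 ^ (2 * d + 7) = 128 * (D * D) := by
      rw [hD, ← pow_add, pow_add]
      have : (2 : ℕ) ^ (2 * d) = 2 ^ (d + d) := by
        congr 1
        ring
      rw [this]
      norm_num
      ring
    omega

end Pool.Agent.L0h58.HM
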